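import Pool.Agent.X218.LP.Fin
import Pool.Agent.X218.GX.Chk1

/-!
# Units at positive integers: `p = 7, 31` and conductors `3^b`
-/

set_option autoImplicit false
set_option maxRecDepth 100000

namespace Pool.Agent.X218.LP

open Finset Filter Topology Polynomial Pool.Agent.Y18.GX
open Pool.Agent.X218.GX

section
variable {p : ℕ} [hp : Fact p.Prime] {C : Type} [NormedField C] [NormedAlgebra ℚ_[p] C] [IsUltrametricDist C]
  [CompleteSpace C]

theorem three_res1 {k : Type} [Field k] [CharP k p] (hp9 : p % 9 = 4 ∨ p % 9 = 7) (hp5 : 5 ≤ p) {L : ℕ}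
    (h2 : ok3all p L = true) {K m : ℕ} (hK : 2 ≤ K) (hm1 : 1 ≤ m) (hmp : m < p)
    (hex : (K = 2 ∧ m = p - 1) → ok3 p K m = true)
    (χ : MulChar (ZMod (3 ^ K)) k) (hprim : χ ((1 + 3 ^ (K - 1) : ℕ) : ZMod (3 ^ K)) ≠ 1) (hpar : χ (-1) = (-1) ^ m) :
    ∑ c ∈ range (3 ^ K), χ (c : ZMod (3 ^ K)) * ff k (3 ^ K) m c ≠ 0 ∧
      (m = 1 → χ ((p : ℕ) : ZMod (3 ^ K)) ≠ 1) := by
  have hpp := hp.out
  have hsq : p ^ 2 % 9 = 4 ∨ p ^ 2 % 9 = 7 := by
    rw [Nat.pow_mod]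
    rcases hp9 with h | h <;> rw [h] <;> simp
  obtain ⟨u, hu⟩ : ∃ u, p ^ 2 - 1 = 3 ^ 1 * u := ⟨(p ^ 2 - 1) / 3, by omega⟩
  have huc : u.Coprime 3 := by
    rw [Nat.coprime_comm, Nat.Prime.coprime_iff_not_dvd Nat.prime_three]
    rintro ⟨w, hw⟩
    omega
  have hc : 3 * ((2 * p + 1) / 3) % p = 1 % p := by
    have h1 : 3 * ((2 * p + 1) / 3) = 1 + p * 2 := by omega
    rw [h1, Nat.add_mul_mod_self_left]
  have hc' : 3 * ((p + 2) / 3) % p = 2 % p := by
    have h1 : 3 * ((p + 2) / 3) = 2 + p := by omega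
    rw [h1, Nat.add_mod_right]
  have hone : ∀ x : ZMod 1, (1 : MulChar (ZMod 1) k) x = 1 := fun x => by rw [Subsingleton.elim x 1, map_one]
  have h3k : ((3 : ℕ) : k) ≠ 0 := by
    have h3 : ((3 : ℕ) : k) * (((2 * p + 1) / 3 : ℕ) : k) = 1 := by rw [cast_of_mod (k := k) hc, Nat.cast_one]
    exact left_ne_zero_of_mul_eq_one h3
  have hconv : ∑ a ∈ range (1 * 3 ^ K), (1 : MulChar (ZMod 1) k) (a : ZMod 1) * χ (a : ZMod (3 ^ K)) *
      Polynomial.aeval ((a : k) / (1 * 3 ^ K : ℕ)) (FF m) = ∑ c ∈ range (3 ^ K), χ (c : ZMod (3 ^ K)) * ff k (3 ^ K) m c := by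
    rw [one_mul]
    refine Finset.sum_congr rfl fun a _ => ?_
    rw [hone, one_mul]
    rfl
  rw [← hconv]
  have hpar' : (1 : MulChar (ZMod 1) k) (-1) * χ (-1) = (-1) ^ m := by rw [hone, one_mul, hpar]
  constructor
  · by_cases hs : m ≤ 3 ^ (K - 2)
    · refine core (p := p) (ℓ := 3) (n := 1) (K := K) (N₁ := 1) (g := 2) (m := m) (u := u)
        (1 : MulChar (ZMod 1) k) χ
        (by omega) (Or.inl ⟨rfl, by omega⟩) (by norm_num) (by omega) (by norm_num) hu huc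
        (fun a => by rw [hone, one_pow]) hprim (by norm_num) (by norm_num) (by simp)
        h3k (FF m) _
        (fun x => FF_aeval_refl m x) hpar'
        (FF_natDegree m) ?_ hm1 hmp ?_
      · rw [FF_coeff m hm1]
        push_cast
        intro h
        have h1 := (CharP.cast_eq_zero_iff k p _).1 h
        have := (hpp.dvd_factorial).1 h1
        omega
      · calc m * 1 * 3 ^ (2 * 1) = m * 3 ^ 2 := by ring
          _ ≤ 3 ^ (K - 2) * 3 ^ 2 := Nat.mul_le_mul_right _ hs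
          _ = 3 ^ K := by
            rw [← pow_add]
            congr 1
            omega
    · have h5 : ok3 p K m = true := by
        unfold ok3all at h2
        rw [Bool.and_eq_true, decide_eq_true_eq, List.all_eq_true] at h2
        obtain ⟨hL, h2⟩ := h2
        have hKL : K ≤ L := by
          by_contra hcon
          have : 3 ^ (L - 1) ≤ 3 ^ (K - 2) := Nat.pow_le_pow_right (by norm_num) (by omega)
          omega
        have h3 := h2 (K - 2) (List.mem_range.2 (by omega))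
        rw [List.all_eq_true] at h3
        have h4 := h3 (m - 1) (List.mem_range.2 (by omega))
        have e1 : m - 1 + 1 = m := by omega
        have e2 : K - 2 + 2 = K := by omega
        rw [e1, e2, Bool.or_eq_true, Bool.or_eq_true, decide_eq_true_eq, decide_eq_true_eq] at h4
        rcases h4 with h4 | h4 | h4
        · exact absurd h4 hs
        · exact hex ⟨by omega, h4.2⟩
        · exact h4
      obtain ⟨a, ha, ha1, x, y, hx, hy, hT⟩ := ok3_spec (by omega) h5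
      exact crit1 hpp hp9 hp5 hK hm1 hmp hc hc' a ha ha1 x y hx hy hT 1 χ hprim hpar'
  · intro _
    have key := euler (p := p) (ℓ := 3) (n := 1) (K := K) (N₁ := 1) (g := 2) (u := u) (1 : MulChar (ZMod 1) k) χ
      (Or.inl ⟨rfl, by omega⟩) (by norm_num) (by omega) (by norm_num) hu huc
      (fun a => by rw [hone, one_pow]) hprim (by omega)
      (by
        have : 3 ^ 2 ≤ 3 ^ K := Nat.pow_le_pow_right (by norm_num) hK
        simpa using this)
    rwa [hone, one_mul] at key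

theorem three_one1 {k : Type} [Field k] [CharP k p] (hp3 : p % 3 = 1) (hp5 : 5 ≤ p) (h1 : ok4all p = true)
    {m : ℕ} (hm1 : 2 ≤ m) (hmp : m < p) (χ : MulChar (ZMod (3 ^ 1)) k) (hχ2 : χ ((2 : ℕ) : ZMod (3 ^ 1)) = -1)
    (hm2 : m % 2 = 1) :
    ∑ c ∈ range (3 ^ 1), χ (c : ZMod (3 ^ 1)) * ff k (3 ^ 1) m c ≠ 0 := by
  have hpp := hp.out
  have hodd : p % 2 = 1 := by rcases hpp.eq_two_or_odd with h | h <;> omega
  have hc : 3 * ((2 * p + 1) / 3) % p = 1 % p := by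
    have h1 : 3 * ((2 * p + 1) / 3) = 1 + p * 2 := by omega
    rw [h1, Nat.add_mul_mod_self_left]
  have hc' : 3 * ((p + 2) / 3) % p = 2 % p := by
    have h1 : 3 * ((p + 2) / 3) = 2 + p := by omega
    rw [h1, Nat.add_mod_right]
  have h3 : ((3 : ℕ) : k) * (((2 * p + 1) / 3 : ℕ) : k) = 1 := by rw [cast_of_mod (k := k) hc, Nat.cast_one]
  have h3' : ((3 : ℕ) : k) * (((p + 2) / 3 : ℕ) : k) = ((2 : ℕ) : k) := cast_of_mod (k := k) hc'
  have h50 : ((3 : ℕ) : k) ≠ 0 := left_ne_zero_of_mul_eq_one h3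
  intro hS
  have e0 : χ ((0 : ℕ) : ZMod (3 ^ 1)) = 0 := by
    apply χ.map_nonunit
    decide +kernel
  have e1 : χ ((1 : ℕ) : ZMod (3 ^ 1)) = 1 := by rw [Nat.cast_one, map_one]
  have h3 : χ ((0 : ℕ) : ZMod (3 ^ 1)) * ff k (3 ^ 1) m 0 + χ ((1 : ℕ) : ZMod (3 ^ 1)) * ff k (3 ^ 1) m 1 +
      χ ((2 : ℕ) : ZMod (3 ^ 1)) * ff k (3 ^ 1) m 2 = 0 := by
    simpa [Finset.sum_range_succ] using hS
  rw [e0, e1, hχ2] at h3
  have h4 : ff k (3 ^ 1) m 1 - ff k (3 ^ 1) m 2 = 0 := by linear_combination h3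
  have f1 : ((1 : ℕ) : k) / ((3 ^ 1 : ℕ) : k) = (((p + 2) / 3 + ((2 * p + 1) / 3 - (p + 2) / 3) : ℕ) : k) := by
    have e9 : (p + 2) / 3 + ((2 * p + 1) / 3 - (p + 2) / 3) = (2 * p + 1) / 3 := by omega
    rw [e9, pow_one, div_eq_iff h50, Nat.cast_one]
    rw [mul_comm]
    exact (cast_of_mod (k := k) hc ▸ by rw [Nat.cast_one] : (1 : k) = ((3 : ℕ) : k) * (((2 * p + 1) / 3 : ℕ) : k))
  have f2 : ((2 : ℕ) : k) / ((3 ^ 1 : ℕ) : k) = (((p + 2) / 3 : ℕ) : k) := by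
    rw [pow_one, div_eq_iff h50, mul_comm, h3']
  unfold ff at h4
  rw [f1, f2, FF_sub m _ _ (by omega), Nat.cast_mul] at h4
  have h6 := (mul_eq_zero.1 h4).resolve_left (fac_ne hpp (by omega) hmp)
  have h7 := (CharP.cast_eq_zero_iff k p _).1 h6
  unfold ok4all at h1
  rw [List.all_eq_true] at h1
  have h8 := h1 (m / 2 - 1) (List.mem_range.2 (by omega))
  rw [bne_iff_ne] at h8
  have e2 : 2 * (m / 2 - 1) + 2 = m - 1 := by omega
  rw [e2] at h8
  exact h8 (Nat.mod_eq_zero_of_dvd h7)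

/-- conductors `3^K`, `p ≡ 4, 7 (mod 9)` -/
theorem three_pow1 (hp9 : p % 9 = 4 ∨ p % 9 = 7) (hp5 : 5 ≤ p) {L : ℕ} (h2 : ok3all p L = true) (h1 : ok4all p = true)
    {K r : ℕ} (hK : 1 ≤ K) (hr : 2 ≤ r) (hex1 : K = 1 → ¬ p - 1 ∣ r)
    (hex2 : K = 2 → p - 1 ∣ r - 1 → ok3 p 2 (p - 1) = true)
    (ψ : DirichletCharacter C (3 ^ K)) (hc : ψ.IsPrimitive)
    (hpar : ψ (-1) = (-1) ^ (r - 1)) : HasUnitLimit p C ψ r := by
  have hpp := hp.out
  have hodd : p % 2 = 1 := by rcases hpp.eq_two_or_odd with h | h <;> omega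
  obtain ⟨m, hm1, hmp, hrm⟩ := exists_m (p := p) (by omega) r
  rw [par_eq hodd hrm] at hpar
  have h2N : (3 ^ K : ℕ) ≠ 0 := by positivity
  refine lval ψ h2N ?_ (dir_ne_one Nat.prime_three (by omega) ψ hc) hr hm1 hmp hrm ?_
  · exact Nat.Coprime.pow_right _ ((Nat.coprime_primes hpp Nat.prime_three).2 (by omega))
  intro k _ _ χ ρ hχ
  have e1 : χ (-1) = (-1) ^ m := by
    rw [hχ]
    have : (⟨ψ (-1), norm_psi ψ h2N _⟩ : OO C) = (-1) ^ m := by
      apply Subtype.ext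
      rw [Subring.coe_pow]
      exact hpar
    rw [this, map_pow, map_neg, map_one]
  rcases Nat.lt_or_ge K 2 with hK2 | hK2
  · have : K = 1 := by omega
    subst this
    have hm1' : m ≠ 1 := by
      rintro rfl
      apply hex1 rfl
      rwa [Nat.sub_add_cancel (by omega)] at hrm
    -- `ψ 2 = -1`
    have h4 : ψ ((2 : ℕ) : ZMod (3 ^ 1)) ^ 2 = 1 := by
      rw [← map_pow]
      have : ((2 : ℕ) : ZMod (3 ^ 1)) ^ 2 = 1 := by decide +kernel
      rw [this, map_one]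
    have hneg : ((2 : ℕ) : ZMod (3 ^ 1)) = -1 := by decide +kernel
    have h5 : ψ ((2 : ℕ) : ZMod (3 ^ 1)) ≠ 1 := by
      intro h
      have hs := dir_ne_one (C := C) Nat.prime_three le_rfl ψ hc
      have e0 : ψ ((0 : ℕ) : ZMod (3 ^ 1)) = 0 := by
        apply ψ.map_nonunit
        decide +kernel
      have e1 : ψ ((1 : ℕ) : ZMod (3 ^ 1)) = 1 := by rw [Nat.cast_one, map_one]
      have h3 : ψ ((0 : ℕ) : ZMod (3 ^ 1)) + ψ ((1 : ℕ) : ZMod (3 ^ 1)) + ψ ((2 : ℕ) : ZMod (3 ^ 1)) = 0 := by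
        simpa [Finset.sum_range_succ] using hs
      rw [e0, e1, h] at h3
      exact nat_ne (p := p) (C := C) (n := 2) (by norm_num) (by push_cast; linear_combination h3)
    have h6 : ψ ((2 : ℕ) : ZMod (3 ^ 1)) = -1 := by
      have h7 : (ψ ((2 : ℕ) : ZMod (3 ^ 1)) - 1) * (ψ ((2 : ℕ) : ZMod (3 ^ 1)) + 1) = 0 := by linear_combination h4
      exact eq_neg_of_add_eq_zero_left ((mul_eq_zero.1 h7).resolve_left (sub_ne_zero.2 h5))
    have hm2 : m % 2 = 1 := by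
      by_contra hcon
      rw [← hneg, h6, (Nat.even_iff.2 (show m % 2 = 0 by omega)).neg_one_pow] at hpar
      exact nat_ne (p := p) (C := C) (n := 2) (by norm_num) (by push_cast; linear_combination -hpar)
    have h8 : χ ((2 : ℕ) : ZMod (3 ^ 1)) = -1 := by
      rw [hneg, e1, (Nat.odd_iff.2 hm2).neg_one_pow]
    exact ⟨three_one1 (k := k) (by omega) hp5 h1 (by omega) hmp χ h8 hm2, fun h => absurd h hm1'⟩
  · have hprim := dir_prim Nat.prime_three hK2 ψ hc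
    have hζ3 := psi_M_pow (n := 1) ψ (by omega)
    rw [pow_one] at hζ3
    have hζ : ψ ((1 + 3 ^ (K - 1) : ℕ) : ZMod (3 ^ K)) ^ 2 + ψ ((1 + 3 ^ (K - 1) : ℕ) : ZMod (3 ^ K)) + 1 = 0 := by
      have h1 : (ψ ((1 + 3 ^ (K - 1) : ℕ) : ZMod (3 ^ K)) - 1) * (ψ ((1 + 3 ^ (K - 1) : ℕ) : ZMod (3 ^ K)) ^ 2 +
        ψ ((1 + 3 ^ (K - 1) : ℕ) : ZMod (3 ^ K)) + 1) = 0 := by linear_combination hζ3
      exact (mul_eq_zero.1 h1).resolve_left (sub_ne_zero.2 hprim)
    refine three_res1 (k := k) hp9 hp5 h2 hK2 hm1 hmp ?_ χ ?_ e1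
    · rintro ⟨rfl, rfl⟩
      exact hex2 rfl ((Nat.dvd_add_left dvd_rfl).1 hrm)
    intro h
    have h5 : (⟨ψ ((1 + 3 ^ (K - 1) : ℕ) : ZMod (3 ^ K)), norm_psi ψ h2N _⟩ : OO C) ^ 2 +
        ⟨ψ ((1 + 3 ^ (K - 1) : ℕ) : ZMod (3 ^ K)), norm_psi ψ h2N _⟩ + 1 = 0 := by
      apply Subtype.ext
      exact hζ
    have h6 := congrArg ρ h5
    rw [map_add, map_add, map_pow, map_one, map_zero, ← hχ, h] at h6
    have h7 : ((3 : ℕ) : k) = 0 := by push_cast; linear_combination h6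
    have h8 := (CharP.cast_eq_zero_iff k p _).1 h7
    have := Nat.le_of_dvd (by norm_num) h8
    omega

end

end Pool.Agent.X218.LP
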