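import Pool.Agent.X218.LP.Gen
import Pool.Agent.TH350.SC.Main

/-!
# Units at positive integers: conductors `2^K` and `3^K`
-/

set_option autoImplicit false
set_option maxRecDepth 100000

namespace Pool.Agent.X218.LP

open Finset Filter Topology Polynomial Pool.Agent.Y18.GX
open Pool.Agent.X218.GX

section
variable {p : ℕ} [hp : Fact p.Prime] {C : Type} [NormedField C] [NormedAlgebra ℚ_[p] C] [IsUltrametricDist C]
  [CompleteSpace C]

/-- the conclusion -/
def HasUnitLimit (p : ℕ) (C : Type) [NormedField C] {N : ℕ} (ψ : MulChar (ZMod N) C) (r : ℕ) : Prop :=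
  ∃ z : C, ‖z‖ = 1 ∧ Tendsto (fun n => (∑ a ∈ (range (N * p ^ n)).filter (fun a => ¬ p ∣ a),
      ψ (a : ZMod N) * ((a : C) ^ (r - 1))⁻¹) / (((r : C) - 1) * ((N : C) * (p : C) ^ n))) atTop (𝓝 z)

theorem two_pow (hp8 : p % 8 = 3) {L : ℕ} (hl : okl p = true) (hh : okh p L = true) {K r : ℕ} (hK : 2 ≤ K)
    (hr : 2 ≤ r) (hex : K = 3 → ¬ p - 1 ∣ r) (ψ : DirichletCharacter C (2 ^ K)) (hc : ψ.IsPrimitive)
    (hpar : ψ (-1) = (-1) ^ (r - 1)) : HasUnitLimit p C ψ r := by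
  have hpp := hp.out
  obtain ⟨m, hm1, hmp, hrm⟩ := exists_m (p := p) (by omega) r
  have hprim := dir_prim Nat.prime_two hK ψ hc
  rw [par_eq (by omega) hrm] at hpar
  have hη := chi_prim (k := C) hK ψ hprim
  have h2N : (2 ^ K : ℕ) ≠ 0 := by positivity
  refine lval ψ h2N ?_ (dir_ne_one Nat.prime_two (by omega) ψ hc) hr hm1 hmp hrm ?_
  · exact Nat.Coprime.pow_right _ ((Nat.coprime_primes hpp Nat.prime_two).2 (by omega))
  intro k _ _ χ ρ hχ
  have h2k := two_ne (k := k) hpp hp8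
  have e1 : χ (-1) = (-1) ^ m := by
    rw [hχ]
    have : (⟨ψ (-1), norm_psi ψ h2N _⟩ : OO C) = (-1) ^ m := by
      apply Subtype.ext
      rw [Subring.coe_pow]
      exact hpar
    rw [this, map_pow, map_neg, map_one]
  have e2 : χ ((1 + 2 ^ (K - 1) : ℕ) : ZMod (2 ^ K)) ≠ 1 := by
    rw [hχ]
    have : (⟨ψ ((1 + 2 ^ (K - 1) : ℕ) : ZMod (2 ^ K)), norm_psi ψ h2N _⟩ : OO C) = -1 := by
      apply Subtype.ext
      exact hη
    rw [this, map_neg, map_one]
    intro h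
    apply h2k
    linear_combination -h
  refine ⟨res_ne hpp hp8 hl hh hK hm1 hmp χ e2 e1, fun hm => ?_⟩
  refine chi_p hpp hp8 hK ?_ χ e2
  intro hK3
  apply hex hK3
  rw [hm] at hrm
  rwa [Nat.sub_add_cancel (by omega)] at hrm

theorem three_res {k : Type} [Field k] [CharP k p] (hp9 : p % 9 = 2 ∨ p % 9 = 5) (hp5 : 5 ≤ p) {L : ℕ}
    (h2 : ok2all p L = true) {K m : ℕ} (hK : 2 ≤ K) (hm1 : 1 ≤ m) (hmp : m < p)
    (χ : MulChar (ZMod (3 ^ K)) k) (hprim : χ ((1 + 3 ^ (K - 1) : ℕ) : ZMod (3 ^ K)) ≠ 1) (hpar : χ (-1) = (-1) ^ m) :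
    ∑ c ∈ range (3 ^ K), χ (c : ZMod (3 ^ K)) * ff k (3 ^ K) m c ≠ 0 ∧
      (m = 1 → χ ((p : ℕ) : ZMod (3 ^ K)) ≠ 1) := by
  have hpp := hp.out
  have hsq : p ^ 2 % 9 = 4 ∨ p ^ 2 % 9 = 7 := by
    rw [Nat.pow_mod]
    rcases hp9 with h | h <;> rw [h] <;> simp
  obtain ⟨u, hu⟩ : ∃ u, p ^ 2 - 1 = 3 ^ 1 * u := ⟨(p ^ 2 - 1) / 3, by omega⟩
  have huc : u.Coprime 3 := by
    rw [Nat.coprime_comm, Nat.Prime.coprime_iff_not_dvd Nat.prime_three]
    rintro ⟨w, hw⟩
    omega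
  have hone : ∀ x : ZMod 1, (1 : MulChar (ZMod 1) k) x = 1 := fun x => by rw [Subsingleton.elim x 1, map_one]
  have h3k : ((3 : ℕ) : k) ≠ 0 := left_ne_zero_of_mul_eq_one (third (k := k) (p := p) (by omega))
  have hconv : ∑ a ∈ range (1 * 3 ^ K), (1 : MulChar (ZMod 1) k) (a : ZMod 1) * χ (a : ZMod (3 ^ K)) *
      Polynomial.aeval ((a : k) / (1 * 3 ^ K : ℕ)) (FF m) = ∑ c ∈ range (3 ^ K), χ (c : ZMod (3 ^ K)) * ff k (3 ^ K) m c := by
    rw [one_mul]
    refine Finset.sum_congr rfl fun a _ => ?_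
    rw [hone, one_mul]
    rfl
  rw [← hconv]
  have hpar' : (1 : MulChar (ZMod 1) k) (-1) * χ (-1) = (-1) ^ m := by rw [hone, one_mul, hpar]
  constructor
  · by_cases hs : m ≤ 3 ^ (K - 2)
    · refine core (p := p) (ℓ := 3) (n := 1) (K := K) (N₁ := 1) (g := 2) (m := m) (u := u)
        (1 : MulChar (ZMod 1) k) χ
        (by omega) (Or.inl ⟨rfl, by omega⟩) (by norm_num) (by omega) (by norm_num) hu huc
        (fun a => by rw [hone, one_pow]) hprim (by norm_num) (by norm_num) (by simp)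
        h3k (FF m) _
        (fun x => FF_aeval_refl m x) hpar'
        (FF_natDegree m) ?_ hm1 hmp ?_
      · rw [FF_coeff m hm1]
        push_cast
        intro h
        have h1 := (CharP.cast_eq_zero_iff k p _).1 h
        have := (hpp.dvd_factorial).1 h1
        omega
      · calc m * 1 * 3 ^ (2 * 1) = m * 3 ^ 2 := by ring
          _ ≤ 3 ^ (K - 2) * 3 ^ 2 := Nat.mul_le_mul_right _ hs
          _ = 3 ^ K := by
            rw [← pow_add]
            congr 1
            omega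
    · unfold ok2all at h2
      rw [Bool.and_eq_true, decide_eq_true_eq, List.all_eq_true] at h2
      obtain ⟨hL, h2⟩ := h2
      have hKL : K ≤ L := by
        by_contra hcon
        have : 3 ^ (L - 1) ≤ 3 ^ (K - 2) := Nat.pow_le_pow_right (by norm_num) (by omega)
        omega
      have h3 := h2 (K - 2) (List.mem_range.2 (by omega))
      rw [List.all_eq_true] at h3
      have h4 := h3 (m - 1) (List.mem_range.2 (by omega))
      have e1 : m - 1 + 1 = m := by omega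
      have e2 : K - 2 + 2 = K := by omega
      rw [e1, e2, Bool.or_eq_true, decide_eq_true_eq] at h4
      have h5 := h4.resolve_left hs
      unfold ok2 at h5
      rw [List.any_eq_true] at h5
      obtain ⟨a, ha, h6⟩ := h5
      rw [Bool.and_eq_true, decide_eq_true_eq, bne_iff_ne] at h6
      exact crit hpp hp9 hp5 hK hm1 hmp a h6.1 (by fin_cases ha <;> rfl) h6.2 1 χ hprim hpar'
  · intro _
    have key := euler (p := p) (ℓ := 3) (n := 1) (K := K) (N₁ := 1) (g := 2) (u := u) (1 : MulChar (ZMod 1) k) χ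
      (Or.inl ⟨rfl, by omega⟩) (by norm_num) (by omega) (by norm_num) hu huc
      (fun a => by rw [hone, one_pow]) hprim (by omega)
      (by
        have : 3 ^ 2 ≤ 3 ^ K := Nat.pow_le_pow_right (by norm_num) hK
        simpa using this)
    rwa [hone, one_mul] at key

theorem three_one {k : Type} [Field k] [CharP k p] (hp3 : p % 3 = 2) (hp5 : 5 ≤ p) (h1 : ok1all p = true)
    {m : ℕ} (hm1 : 1 ≤ m) (hmp : m < p) (χ : MulChar (ZMod (3 ^ 1)) k) (hχ2 : χ ((2 : ℕ) : ZMod (3 ^ 1)) = -1)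
    (hm2 : m % 2 = 1) :
    ∑ c ∈ range (3 ^ 1), χ (c : ZMod (3 ^ 1)) * ff k (3 ^ 1) m c ≠ 0 ∧
      (m = 1 → χ ((p : ℕ) : ZMod (3 ^ 1)) ≠ 1) := by
  have hpp := hp.out
  have h2k : (2 : k) ≠ 0 := by
    have := left_ne_zero_of_mul_eq_one (half (k := k) (p := p) (by rcases hpp.eq_two_or_odd with h | h <;> omega))
    exact_mod_cast this
  constructor
  · intro hS
    have e0 : χ ((0 : ℕ) : ZMod (3 ^ 1)) = 0 := by
      apply χ.map_nonunit
      decide +kernel
    have e1 : χ ((1 : ℕ) : ZMod (3 ^ 1)) = 1 := by rw [Nat.cast_one, map_one]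
    have h3 : χ ((0 : ℕ) : ZMod (3 ^ 1)) * ff k (3 ^ 1) m 0 + χ ((1 : ℕ) : ZMod (3 ^ 1)) * ff k (3 ^ 1) m 1 +
        χ ((2 : ℕ) : ZMod (3 ^ 1)) * ff k (3 ^ 1) m 2 = 0 := by
      simpa [Finset.sum_range_succ] using hS
    rw [e0, e1, hχ2] at h3
    have h4 : ff k (3 ^ 1) m 2 - ff k (3 ^ 1) m 1 = 0 := by linear_combination -h3
    have h5 := third (k := k) (p := p) hp3
    have h50 : ((3 : ℕ) : k) ≠ 0 := left_ne_zero_of_mul_eq_one h5
    have f1 : ((1 : ℕ) : k) / ((3 ^ 1 : ℕ) : k) = (((p + 1) / 3 : ℕ) : k) := by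
      rw [pow_one, div_eq_iff h50]
      push_cast at h5 ⊢
      linear_combination -h5
    have f2 : ((2 : ℕ) : k) / ((3 ^ 1 : ℕ) : k) = (((p + 1) / 3 + (p + 1) / 3 : ℕ) : k) := by
      rw [pow_one, div_eq_iff h50]
      rw [Nat.cast_add]
      push_cast at h5 ⊢
      linear_combination -2 * h5
    unfold ff at h4
    rw [f1, f2, FF_sub m _ _ hm1, Nat.cast_mul] at h4
    have h6 := (mul_eq_zero.1 h4).resolve_left (fac_ne hpp hm1 hmp)
    have h7 := (CharP.cast_eq_zero_iff k p _).1 h6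
    unfold ok1all at h1
    rw [List.all_eq_true] at h1
    have hodd : p % 2 = 1 := by rcases hpp.eq_two_or_odd with h | h <;> omega
    have h8 := h1 (m / 2) (List.mem_range.2 (by omega))
    rw [bne_iff_ne] at h8
    have e2 : 2 * (m / 2) = m - 1 := by omega
    rw [e2] at h8
    exact h8 (Nat.mod_eq_zero_of_dvd h7)
  · intro _ h
    have h3 : ((p : ℕ) : ZMod (3 ^ 1)) = ((2 : ℕ) : ZMod (3 ^ 1)) := by
      rw [ZMod.natCast_eq_natCast_iff]
      change p % 3 = 2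
      exact hp3
    rw [h3, hχ2] at h
    apply h2k
    linear_combination -h

theorem three_pow (hp9 : p % 9 = 2 ∨ p % 9 = 5) (hp5 : 5 ≤ p) {L : ℕ} (h2 : ok2all p L = true)
    {K r : ℕ} (hK : 1 ≤ K) (h1 : K = 1 → ok1all p = true) (hr : 2 ≤ r) (ψ : DirichletCharacter C (3 ^ K)) (hc : ψ.IsPrimitive)
    (hpar : ψ (-1) = (-1) ^ (r - 1)) : HasUnitLimit p C ψ r := by
  have hpp := hp.out
  have hodd : p % 2 = 1 := by rcases hpp.eq_two_or_odd with h | h <;> omega
  obtain ⟨m, hm1, hmp, hrm⟩ := exists_m (p := p) (by omega) r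
  rw [par_eq hodd hrm] at hpar
  have h2N : (3 ^ K : ℕ) ≠ 0 := by positivity
  refine lval ψ h2N ?_ (dir_ne_one Nat.prime_three (by omega) ψ hc) hr hm1 hmp hrm ?_
  · exact Nat.Coprime.pow_right _ ((Nat.coprime_primes hpp Nat.prime_three).2 (by omega))
  intro k _ _ χ ρ hχ
  have e1 : χ (-1) = (-1) ^ m := by
    rw [hχ]
    have : (⟨ψ (-1), norm_psi ψ h2N _⟩ : OO C) = (-1) ^ m := by
      apply Subtype.ext
      rw [Subring.coe_pow]
      exact hpar
    rw [this, map_pow, map_neg, map_one]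
  rcases Nat.lt_or_ge K 2 with hK2 | hK2
  · have : K = 1 := by omega
    subst this
    -- `ψ 2 = -1`
    have h4 : ψ ((2 : ℕ) : ZMod (3 ^ 1)) ^ 2 = 1 := by
      rw [← map_pow]
      have : ((2 : ℕ) : ZMod (3 ^ 1)) ^ 2 = 1 := by decide +kernel
      rw [this, map_one]
    have hneg : ((2 : ℕ) : ZMod (3 ^ 1)) = -1 := by decide +kernel
    have h5 : ψ ((2 : ℕ) : ZMod (3 ^ 1)) ≠ 1 := by
      intro h
      have hs := dir_ne_one (C := C) Nat.prime_three le_rfl ψ hc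
      have e0 : ψ ((0 : ℕ) : ZMod (3 ^ 1)) = 0 := by
        apply ψ.map_nonunit
        decide +kernel
      have e1 : ψ ((1 : ℕ) : ZMod (3 ^ 1)) = 1 := by rw [Nat.cast_one, map_one]
      have h3 : ψ ((0 : ℕ) : ZMod (3 ^ 1)) + ψ ((1 : ℕ) : ZMod (3 ^ 1)) + ψ ((2 : ℕ) : ZMod (3 ^ 1)) = 0 := by
        simpa [Finset.sum_range_succ] using hs
      rw [e0, e1, h] at h3
      exact nat_ne (p := p) (C := C) (n := 2) (by norm_num) (by push_cast; linear_combination h3)
    have h6 : ψ ((2 : ℕ) : ZMod (3 ^ 1)) = -1 := by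
      have h7 : (ψ ((2 : ℕ) : ZMod (3 ^ 1)) - 1) * (ψ ((2 : ℕ) : ZMod (3 ^ 1)) + 1) = 0 := by linear_combination h4
      exact eq_neg_of_add_eq_zero_left ((mul_eq_zero.1 h7).resolve_left (sub_ne_zero.2 h5))
    have hm2 : m % 2 = 1 := by
      by_contra hcon
      rw [← hneg, h6, (Nat.even_iff.2 (show m % 2 = 0 by omega)).neg_one_pow] at hpar
      exact nat_ne (p := p) (C := C) (n := 2) (by norm_num) (by push_cast; linear_combination -hpar)
    have h8 : χ ((2 : ℕ) : ZMod (3 ^ 1)) = -1 := by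
      rw [hneg, e1, (Nat.odd_iff.2 hm2).neg_one_pow]
    exact three_one (k := k) (by omega) hp5 (h1 rfl) hm1 hmp χ h8 hm2
  · have hprim := dir_prim Nat.prime_three hK2 ψ hc
    have hζ3 := psi_M_pow (n := 1) ψ (by omega)
    rw [pow_one] at hζ3
    have hζ : ψ ((1 + 3 ^ (K - 1) : ℕ) : ZMod (3 ^ K)) ^ 2 + ψ ((1 + 3 ^ (K - 1) : ℕ) : ZMod (3 ^ K)) + 1 = 0 := by
      have h1 : (ψ ((1 + 3 ^ (K - 1) : ℕ) : ZMod (3 ^ K)) - 1) * (ψ ((1 + 3 ^ (K - 1) : ℕ) : ZMod (3 ^ K)) ^ 2 +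
        ψ ((1 + 3 ^ (K - 1) : ℕ) : ZMod (3 ^ K)) + 1) = 0 := by linear_combination hζ3
      exact (mul_eq_zero.1 h1).resolve_left (sub_ne_zero.2 hprim)
    refine three_res (k := k) hp9 hp5 h2 hK2 hm1 hmp χ ?_ e1
    intro h
    have h5 : (⟨ψ ((1 + 3 ^ (K - 1) : ℕ) : ZMod (3 ^ K)), norm_psi ψ h2N _⟩ : OO C) ^ 2 +
        ⟨ψ ((1 + 3 ^ (K - 1) : ℕ) : ZMod (3 ^ K)), norm_psi ψ h2N _⟩ + 1 = 0 := by
      apply Subtype.ext
      exact hζ
    have h6 := congrArg ρ h5
    rw [map_add, map_add, map_pow, map_one, map_zero, ← hχ, h] at h6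
    have h7 : ((3 : ℕ) : k) = 0 := by push_cast; linear_combination h6
    exact left_ne_zero_of_mul_eq_one (third (k := k) (p := p) (by omega)) h7

/-- Bernoulli numbers -/
lemma bern_num {m : ℕ} (hm1 : 1 ≤ m) (hmp : m + 1 < p) (hT : S m 0 p % p ^ 2 ≠ 0) :
    ¬ (p : ℤ) ∣ (_root_.bernoulli m).num := by
  have hpp := hp.out
  have hz := zc_spec (Nat.lt_succ_self m)
  rw [Nat.succ_eq_add_one] at hz
  have hz' : (zc (m + 1) m : ℚ) = ((m + 1).factorial : ℚ) * (m + 1 : ℕ) * _root_.bernoulli m := by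
    rw [hz, Nat.choose_succ_self_right]
    ring
  have hnd : ¬ (p : ℤ) ∣ zc (m + 1) m := by
    intro h
    have h1 := FF_eval_nat (m + 1) p (by omega)
    rw [FF, eval_finset_sum, Finset.sum_range_succ] at h1
    simp only [eval_monomial] at h1
    have h2 : (p : ℤ) ^ 2 ∣ ∑ i ∈ range m, zc (m + 1) i * (p : ℤ) ^ (m + 1 - i) := by
      refine Finset.dvd_sum fun i hi => ?_
      have := mem_range.1 hi
      exact Dvd.dvd.mul_left (pow_dvd_pow _ (by omega)) _
    have h3 : (p : ℤ) ^ 2 ∣ zc (m + 1) m * (p : ℤ) ^ (m + 1 - m) := by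
      have : m + 1 - m = 1 := by omega
      rw [this, pow_one, pow_two]
      exact mul_dvd_mul_right h _
    have h4 := dvd_add h2 h3
    rw [h1] at h4
    have h5 : p ^ 2 ∣ (m + 1).factorial * (m + 1) * ∑ j ∈ range p, j ^ m := by
      rw [Nat.add_sub_cancel] at h4
      exact_mod_cast h4
    have h6 : (p ^ 2).Coprime ((m + 1).factorial * (m + 1)) := by
      apply Nat.Coprime.pow_left
      rw [Nat.Prime.coprime_iff_not_dvd hpp]
      intro h7
      rcases (hpp.dvd_mul).1 h7 with h8 | h8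
      · have := (hpp.dvd_factorial).1 h8
        omega
      · have := Nat.le_of_dvd (by omega) h8
        omega
    have h7 := h6.dvd_of_dvd_mul_left h5
    apply hT
    rw [S_eq]
    simp only [zero_add]
    exact Nat.mod_eq_zero_of_dvd h7
  intro h
  apply hnd
  have h1 : (zc (m + 1) m : ℚ) * (_root_.bernoulli m).den =
      ((m + 1).factorial : ℚ) * (m + 1 : ℕ) * (_root_.bernoulli m).num := by
    rw [hz', mul_assoc, Rat.mul_den_eq_num]
  have h2 : zc (m + 1) m * ((_root_.bernoulli m).den : ℤ) =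
      ((m + 1).factorial : ℤ) * (m + 1 : ℕ) * (_root_.bernoulli m).num := by
    exact_mod_cast h1
  have h3 : (p : ℤ) ∣ zc (m + 1) m * ((_root_.bernoulli m).den : ℤ) := by
    rw [h2]
    exact Dvd.dvd.mul_left h _
  have hp' : Prime (p : ℤ) := Nat.prime_iff_prime_int.1 hpp
  rcases hp'.dvd_mul.1 h3 with h4 | h4
  · exact h4
  · exfalso
    have h5 := (_root_.bernoulli m).reduced
    have h6 : p ∣ (_root_.bernoulli m).num.natAbs := Int.natCast_dvd.1 h
    have h7 : p ∣ (_root_.bernoulli m).den := by exact_mod_cast h4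
    have h8 := Nat.dvd_gcd h6 h7
    rw [h5] at h8
    have := hpp.one_lt
    have := Nat.dvd_one.1 h8
    omega

theorem zero_lev (hp5 : 5 ≤ p) (h0 : ok0all p = true) {ℓ r : ℕ} (hr : 2 ≤ r) (hex : ¬ p - 1 ∣ r - 1)
    (ψ : DirichletCharacter C (ℓ ^ 0)) (hpar : ψ (-1) = (-1) ^ (r - 1)) : HasUnitLimit p C ψ r := by
  have hpp := hp.out
  have hodd : p % 2 = 1 := by rcases hpp.eq_two_or_odd with h | h <;> omega
  have hψ : ∀ x, ψ x = 1 := fun x => by
    have : x = 1 := Subsingleton.elim (α := ZMod 1) x 1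
    rw [this, map_one]
  obtain ⟨m, hm1, hmp, hrm⟩ := exists_m (p := p) (by omega) r
  rw [par_eq hodd hrm, hψ] at hpar
  have hm2 : m % 2 = 0 := by
    by_contra hcon
    rw [(Nat.odd_iff.2 (show m % 2 = 1 by omega)).neg_one_pow] at hpar
    exact nat_ne (p := p) (C := C) (n := 2) (by norm_num) (by push_cast; linear_combination hpar)
  have hmne : m ≠ p - 1 := by
    intro h
    rw [h] at hrm
    exact hex ((Nat.dvd_add_left dvd_rfl).1 hrm)
  have hT : S m 0 p % p ^ 2 ≠ 0 := by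
    unfold ok0all at h0
    rw [List.all_eq_true] at h0
    have h3 := h0 (m / 2 - 1) (List.mem_range.2 (by omega))
    rw [bne_iff_ne] at h3
    have e1 : 2 * (m / 2 - 1) + 2 = m := by omega
    rwa [e1] at h3
  have hB := bern_num (p := p) (m := m) hm1 (by omega) hT
  have e2 : 2 * (m / 2) = m := by omega
  rw [← e2] at hB hrm
  obtain ⟨z, hz, ht⟩ := Pool.Agent.TH350.SC.zetaUnit (p := p) (m := m / 2) (r := r) (by omega) (by omega) hr hrm hB
  refine ⟨algebraMap ℚ_[p] C z, by rw [norm_algebraMap', hz], ?_⟩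
  have h3 := ((continuous_algebraMap ℚ_[p] C).tendsto z).comp ht
  refine h3.congr fun n => ?_
  have hN1 : ((ℓ ^ 0 : ℕ) : C) = 1 := by rw [pow_zero, Nat.cast_one]
  have hN2 : ∀ x : ℕ, ℓ ^ 0 * x = x := fun x => by rw [pow_zero, one_mul]
  rw [Function.comp_apply, Pool.Agent.TH350.SC.zetaApprox, map_div₀, map_sum]
  simp only [hψ, one_mul, hN1, hN2, mul_one]
  congr 1
  · refine Finset.sum_congr rfl fun a _ => ?_
    rw [map_inv₀, map_pow, map_natCast]
  · rw [map_mul, map_sub, map_one, map_natCast, map_pow, map_natCast]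

/-- there is no primitive character modulo `2` -/
lemma no_prim_two (ψ : DirichletCharacter C (2 ^ 1)) (hc : ψ.IsPrimitive) : False := by
  have h := dir_ne_one (C := C) Nat.prime_two le_rfl ψ hc
  have e0 : ψ ((0 : ℕ) : ZMod (2 ^ 1)) = 0 := by
    apply ψ.map_nonunit
    decide +kernel
  have e1 : ψ ((1 : ℕ) : ZMod (2 ^ 1)) = 1 := by rw [Nat.cast_one, map_one]
  have h3 : ψ ((0 : ℕ) : ZMod (2 ^ 1)) + ψ ((1 : ℕ) : ZMod (2 ^ 1)) = 0 := by
    simpa [Finset.sum_range_succ] using h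
  rw [e0, e1, zero_add] at h3
  exact one_ne_zero h3

end

theorem k163 : okl 163 = true ∧ okh 163 8 = true ∧ ok0all 163 = true := by decide +kernel
theorem k211 : okl 211 = true ∧ okh 211 8 = true ∧ ok0all 211 = true := by decide +kernel
theorem k331 : okl 331 = true ∧ okh 331 9 = true ∧ ok0all 331 = true := by decide +kernel

end Pool.Agent.X218.LP
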