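import Pool.Agent.X218.LP.Unit
import Pool.Agent.X218.GX.Pow2c
import Pool.Agent.X218.GX.Chk

/-!
# Units at positive integers: the general statements
-/

set_option autoImplicit false

namespace Pool.Agent.X218.LP

open Finset Filter Topology Polynomial Pool.Agent.Y18.GX
open Pool.Agent.X218.GX (FF_aeval_nat FF_sub S S_eq)

section
variable {p : ℕ} [hp : Fact p.Prime] {C : Type} [NormedField C] [NormedAlgebra ℚ_[p] C] [IsUltrametricDist C]

theorem lval [CompleteSpace C] {N : ℕ} (ψ : MulChar (ZMod N) C) (hN : N ≠ 0) (hpN : p.Coprime N)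
    (hψ : ∑ c ∈ range N, ψ (c : ZMod N) = 0) {r m : ℕ} (hr : 2 ≤ r) (hm1 : 1 ≤ m) (hmp : m < p)
    (hrm : p - 1 ∣ r - 1 + m)
    (hres : ∀ (k : Type) [Field k] [CharP k p] (χ : MulChar (ZMod N) k) (ρ : OO C →+* k),
      (∀ x, χ x = ρ ⟨ψ x, norm_psi ψ hN x⟩) → ∑ c ∈ range N, χ (c : ZMod N) * ff k N m c ≠ 0 ∧
      (m = 1 → χ ((p : ℕ) : ZMod N) ≠ 1)) :
    ∃ z : C, ‖z‖ = 1 ∧ Tendsto (fun n => (∑ a ∈ (range (N * p ^ n)).filter (fun a => ¬ p ∣ a),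
      ψ (a : ZMod N) * ((a : C) ^ (r - 1))⁻¹) / (((r : C) - 1) * ((N : C) * (p : C) ^ n))) atTop (𝓝 z) := by
  obtain ⟨z, hz, ht⟩ := T_lim ψ hN hψ hpN (s := r - 1) (by omega) (unit_val ψ hN hpN hψ hm1 hmp hrm hres)
  refine ⟨z, hz, ht.congr fun n => ?_⟩
  have e1 : ((r - 1 : ℕ) : C) = (r : C) - 1 := by
    rw [Nat.cast_sub (by omega), Nat.cast_one]
  rw [e1]
  congr 1
  unfold T
  rw [Finset.sum_filter, mul_comm (p ^ n) N]
  refine Finset.sum_congr rfl fun x _ => ?_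
  unfold w
  by_cases h : p ∣ x
  · rw [if_pos h, if_neg (by simpa using h), zero_pow (by omega), mul_zero]
  · rw [if_neg h, if_pos h, inv_pow]

omit hp [NormedAlgebra ℚ_[p] C] [IsUltrametricDist C] in
lemma par_eq (hp2 : p % 2 = 1) {r m : ℕ} (hrm : p - 1 ∣ r - 1 + m) {R : Type*} [CommRing R] :
    ((-1 : R)) ^ (r - 1) = (-1) ^ m := by
  obtain ⟨t, ht⟩ := hrm
  have h1 : (r - 1 + m) % 2 = 0 := by
    rw [ht]
    have : (p - 1) % 2 = 0 := by omega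
    rw [Nat.mul_mod, this, zero_mul, Nat.zero_mod]
  rcases Nat.mod_two_eq_zero_or_one m with h2 | h2
  · rw [(Nat.even_iff.2 h2).neg_one_pow, (Nat.even_iff.2 (show (r - 1) % 2 = 0 by omega)).neg_one_pow]
  · rw [(Nat.odd_iff.2 h2).neg_one_pow, (Nat.odd_iff.2 (show (r - 1) % 2 = 1 by omega)).neg_one_pow]

/-- the residue `m` of `1 - r` modulo `p - 1` -/
lemma exists_m (hp3 : 3 ≤ p) (r : ℕ) : ∃ m, 1 ≤ m ∧ m < p ∧ p - 1 ∣ r - 1 + m := by
  refine ⟨(p - 1) - (r - 1) % (p - 1), ?_, ?_, ?_⟩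
  · have := Nat.mod_lt (r - 1) (show 0 < p - 1 by omega)
    omega
  · omega
  · have h1 := Nat.mod_lt (r - 1) (show 0 < p - 1 by omega)
    have h2 := Nat.div_add_mod (r - 1) (p - 1)
    refine ⟨(r - 1) / (p - 1) + 1, ?_⟩
    rw [mul_add, mul_one]
    omega

omit [IsUltrametricDist C] [NormedAlgebra ℚ_[p] C] hp in
lemma dir_prim {ℓ K : ℕ} (hℓ : ℓ.Prime) (hK : 2 ≤ K) (ψ : DirichletCharacter C (ℓ ^ K)) (hc : ψ.IsPrimitive) :
    ψ ((1 + ℓ ^ (K - 1) : ℕ) : ZMod (ℓ ^ K)) ≠ 1 := by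
  intro h1
  have : NeZero (ℓ ^ K) := ⟨pow_ne_zero _ hℓ.ne_zero⟩
  have hd : ℓ ^ (K - 1) ∣ ℓ ^ K := pow_dvd_pow _ (by omega)
  have h2 : ψ.FactorsThrough (ℓ ^ (K - 1)) := by
    rw [DirichletCharacter.factorsThrough_iff_ker_unitsMap hd]
    intro U hU
    rw [MonoidHom.mem_ker] at hU ⊢
    have h3 : ((U : ZMod (ℓ ^ K)).cast : ZMod (ℓ ^ (K - 1))) = 1 := by
      have := congrArg Units.val hU
      simpa [ZMod.unitsMap] using this
    set a := (U : ZMod (ℓ ^ K)).val with ha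
    have haU : ((a : ℕ) : ZMod (ℓ ^ K)) = U := by rw [ha, ZMod.natCast_val, ZMod.cast_id', id_eq]
    have h4 : a ≡ 1 [MOD ℓ ^ (K - 1)] := by
      rw [← ZMod.natCast_eq_natCast_iff, Nat.cast_one, ← h3, ha, ZMod.natCast_val]
    have hM : 1 < ℓ ^ (K - 1) := Nat.one_lt_pow (by omega) hℓ.one_lt
    obtain ⟨t, ht⟩ : ∃ t, a = 1 + ℓ ^ (K - 1) * t := by
      refine ⟨a / ℓ ^ (K - 1), ?_⟩
      have h5 : a % ℓ ^ (K - 1) = 1 := by
        have : a % ℓ ^ (K - 1) = 1 % ℓ ^ (K - 1) := h4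
        rw [this, Nat.mod_eq_of_lt hM]
      have h6 := Nat.div_add_mod a (ℓ ^ (K - 1))
      omega
    have h7 : ψ ((a : ℕ) : ZMod (ℓ ^ K)) = ψ ((1 + ℓ ^ (K - 1) : ℕ) : ZMod (ℓ ^ K)) ^ t := by
      rw [← map_pow]
      congr 1
      rw [ht, ← Nat.cast_pow, ZMod.natCast_eq_natCast_iff]
      have h8 : ∀ t : ℕ, (1 + ℓ ^ (K - 1)) ^ t ≡ 1 + ℓ ^ (K - 1) * t [MOD ℓ ^ K] := by
        intro t
        induction t with
        | zero => simp [Nat.ModEq]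
        | succ t ih =>
          rw [pow_succ]
          refine (ih.mul_right _).trans ?_
          have h9 : (1 + ℓ ^ (K - 1) * t) * (1 + ℓ ^ (K - 1)) =
              1 + ℓ ^ (K - 1) * (t + 1) + ℓ ^ K * (ℓ ^ (K - 2) * t) := by
            have h10 : ℓ ^ (K - 1) * ℓ ^ (K - 1) = ℓ ^ K * ℓ ^ (K - 2) := by
              rw [← pow_add, ← pow_add]
              congr 1
              omega
            calc (1 + ℓ ^ (K - 1) * t) * (1 + ℓ ^ (K - 1)) =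
                1 + ℓ ^ (K - 1) * (t + 1) + (ℓ ^ (K - 1) * ℓ ^ (K - 1)) * t := by ring
              _ = _ := by rw [h10]; ring
          rw [h9, Nat.ModEq, Nat.add_mul_mod_self_left]
      exact (h8 t).symm
    rw [haU, h1, one_pow] at h7
    apply Units.ext
    rw [MulChar.coe_toUnitHom]
    exact h7
  have h3 := h2.dvd
  have h4 : ψ.conductor ≤ ℓ ^ (K - 1) := by
    have h5 := DirichletCharacter.mem_conductorSet_iff ψ |>.2 h2
    exact Nat.sInf_le h5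
  rw [DirichletCharacter.isPrimitive_def] at hc
  rw [hc] at h4
  exact absurd h4 (not_le.2 (Nat.pow_lt_pow_right hℓ.one_lt (by omega)))

omit [IsUltrametricDist C] [NormedAlgebra ℚ_[p] C] hp in
lemma dir_ne_one {ℓ K : ℕ} (hℓ : ℓ.Prime) (hK : 1 ≤ K) (ψ : DirichletCharacter C (ℓ ^ K)) (hc : ψ.IsPrimitive) :
    ∑ c ∈ range (ℓ ^ K), ψ (c : ZMod (ℓ ^ K)) = 0 := by
  have : NeZero (ℓ ^ K) := ⟨pow_ne_zero _ hℓ.ne_zero⟩
  have hne : ψ ≠ 1 := by
    intro h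
    rw [DirichletCharacter.isPrimitive_def, h, DirichletCharacter.conductor_one] at hc
    exact (Nat.one_lt_pow (by omega) hℓ.one_lt).ne hc
  rw [← MulChar.sum_eq_zero_of_ne_one hne]
  refine Finset.sum_nbij' (fun b => (b : ZMod (ℓ ^ K))) ZMod.val ?_ ?_ ?_ ?_ ?_
  · intro b _; exact Finset.mem_univ _
  · intro y _; exact Finset.mem_range.2 (ZMod.val_lt y)
  · intro b hb; exact ZMod.val_cast_of_lt (Finset.mem_range.1 hb)
  · intro y _; exact ZMod.natCast_zmod_val y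
  · intro b _; rfl

end

end Pool.Agent.X218.LP
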