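import Pool.Agent.X218.LP.Res

/-!
# The `p`-adic `L`-values at positive integers as limits of integral sums
-/

set_option autoImplicit false

namespace Pool.Agent.X218.LP

open Finset Filter Topology

section
variable {p : ℕ} [hp : Fact p.Prime] {C : Type} [NormedField C] [NormedAlgebra ℚ_[p] C] [IsUltrametricDist C]

lemma norm_nat (n : ℕ) : ‖(n : C)‖ = ‖(n : ℚ_[p])‖ := by
  rw [← map_natCast (algebraMap ℚ_[p] C) n, norm_algebraMap']

include hp

lemma norm_nat_le (n : ℕ) : ‖(n : C)‖ ≤ 1 := by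
  rw [norm_nat (p := p)]
  exact_mod_cast Padic.norm_int_le_one (p := p) (n : ℤ)

lemma norm_nat_one {n : ℕ} (h : ¬ p ∣ n) : ‖(n : C)‖ = 1 := by
  rw [norm_nat (p := p), Padic.norm_natCast_eq_one_iff]
  exact (Nat.Prime.coprime_iff_not_dvd hp.out).2 h

lemma norm_pp : ‖(p : C)‖ = (p : ℝ)⁻¹ := by
  rw [norm_nat (p := p), Padic.norm_p]

lemma nat_ne {n : ℕ} (h : n ≠ 0) : (n : C) ≠ 0 := by
  have : CharZero C := charZero_of_injective_algebraMap (algebraMap ℚ_[p] C).injective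
  exact_mod_cast h

open Classical in
/-- the inverse, or zero -/
noncomputable def w (p : ℕ) (C : Type) [NormedField C] (x : ℕ) : C := if p ∣ x then 0 else (x : C)⁻¹

lemma norm_w (x : ℕ) : ‖w p C x‖ ≤ 1 := by
  unfold w
  split_ifs with h
  · simp
  · rw [norm_inv, norm_nat_one (p := p) h, inv_one]

omit hp in
lemma norm_pow_le {x : C} (hx : ‖x‖ ≤ 1) (s : ℕ) : ‖x ^ s‖ ≤ 1 := by
  rw [norm_pow]
  exact pow_le_one₀ (norm_nonneg _) hx

omit hp in
lemma norm_mul_le' {x y : C} {a : ℝ} (ha : 0 ≤ a) (hx : ‖x‖ ≤ 1) (hy : ‖y‖ ≤ a) : ‖x * y‖ ≤ a := by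
  rw [norm_mul]
  calc ‖x‖ * ‖y‖ ≤ 1 * a := mul_le_mul hx hy (norm_nonneg _) zero_le_one
    _ = a := one_mul a

omit hp in
lemma norm_add_le' {x y : C} {a : ℝ} (hx : ‖x‖ ≤ a) (hy : ‖y‖ ≤ a) : ‖x + y‖ ≤ a :=
  (IsUltrametricDist.norm_add_le_max x y).trans (max_le hx hy)

lemma w_rel {n : ℕ} (hn : 1 ≤ n) (a b : ℕ) :
    w p C (a + p ^ n * b) = w p C a - (p : C) ^ n * b * (w p C (a + p ^ n * b) * w p C a) := by
  have h1 : p ∣ a + p ^ n * b ↔ p ∣ a := by
    have : p ∣ p ^ n * b := Dvd.dvd.mul_right (dvd_pow_self p (by omega)) b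
    exact (Nat.dvd_add_left this)
  by_cases h : p ∣ a
  · unfold w
    rw [if_pos h, if_pos (h1.2 h)]
    ring
  · have h' : ¬ p ∣ a + p ^ n * b := fun h2 => h (h1.1 h2)
    unfold w
    rw [if_neg h, if_neg h']
    have e1 : (a : C) ≠ 0 := nat_ne (p := p) (fun h0 => h (h0 ▸ dvd_zero p))
    have e2 : ((a + p ^ n * b : ℕ) : C) ≠ 0 := nat_ne (p := p) (fun h0 => h' (h0 ▸ dvd_zero p))
    have e3 : ((a + p ^ n * b : ℕ) : C) = a + (p : C) ^ n * b := by push_cast; ring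
    rw [e3] at e2 ⊢
    field_simp
    ring

/-- `1/p` -/
noncomputable def q (p : ℕ) : ℝ := (p : ℝ)⁻¹

omit hp in
lemma q_nonneg : 0 ≤ q p := by unfold q; positivity

lemma q_lt : q p < 1 := by
  unfold q
  exact inv_lt_one_of_one_lt₀ (by exact_mod_cast hp.out.one_lt)

lemma norm_h (n b : ℕ) : ‖(p : C) ^ n * b‖ ≤ q p ^ n := by
  rw [mul_comm]
  refine norm_mul_le' (pow_nonneg q_nonneg _) (norm_nat_le (p := p) b) ?_
  rw [norm_pow, norm_pp (p := p)]
  rfl

lemma w_diff {n : ℕ} (hn : 1 ≤ n) (a b : ℕ) : ‖w p C (a + p ^ n * b) - w p C a‖ ≤ q p ^ n := by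
  have h := w_rel (C := C) (p := p) hn a b
  have h1 : w p C (a + p ^ n * b) - w p C a = (- (w p C (a + p ^ n * b) * w p C a)) * ((p : C) ^ n * b) := by
    linear_combination h
  rw [h1]
  refine norm_mul_le' (pow_nonneg q_nonneg _) ?_ (norm_h n b)
  rw [norm_neg]
  exact norm_mul_le' zero_le_one (norm_w _) (norm_w _)

lemma w_pow_diff {n : ℕ} (hn : 1 ≤ n) (a b s : ℕ) : ‖w p C (a + p ^ n * b) ^ s - w p C a ^ s‖ ≤ q p ^ n := by
  induction s with
  | zero => simp [pow_nonneg q_nonneg]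
  | succ s ih =>
    have h1 : w p C (a + p ^ n * b) ^ (s + 1) - w p C a ^ (s + 1) =
        w p C (a + p ^ n * b) ^ s * (w p C (a + p ^ n * b) - w p C a) +
        w p C a * (w p C (a + p ^ n * b) ^ s - w p C a ^ s) := by ring
    rw [h1]
    refine norm_add_le' ?_ ?_
    · exact norm_mul_le' (pow_nonneg q_nonneg _) (norm_pow_le (norm_w _) s) (w_diff hn a b)
    · exact norm_mul_le' (pow_nonneg q_nonneg _) (norm_w _) ih

lemma w_second {n : ℕ} (hn : 1 ≤ n) (a b s : ℕ) :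
    ‖w p C (a + p ^ n * b) ^ s - w p C a ^ s + s * ((p : C) ^ n * b) * w p C a ^ (s + 1)‖ ≤ (q p ^ n) ^ 2 := by
  have hq0 : (0 : ℝ) ≤ (q p ^ n) ^ 2 := by positivity
  induction s with
  | zero => simp [hq0]
  | succ s ih =>
    have h := w_rel (C := C) (p := p) hn a b
    set x := w p C (a + p ^ n * b)
    set y := w p C a
    set t := (p : C) ^ n * b with ht
    have h1 : x ^ (s + 1) - y ^ (s + 1) + ((s + 1 : ℕ) : C) * t * y ^ (s + 1 + 1) =
        x * (x ^ s - y ^ s + s * t * y ^ (s + 1)) + (((s + 1 : ℕ) : C) * (y ^ (s + 2) * x)) * t ^ 2 := by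
      push_cast
      linear_combination (y ^ s - (s + 1) * t * y ^ (s + 1)) * h
    rw [h1]
    refine norm_add_le' (norm_mul_le' hq0 (norm_w _) ih) ?_
    refine norm_mul_le' hq0 ?_ ?_
    · exact norm_mul_le' zero_le_one (norm_nat_le (p := p) _)
        (norm_mul_le' zero_le_one (norm_pow_le (norm_w _) _) (norm_w _))
    · rw [norm_pow]
      exact pow_le_pow_left₀ (norm_nonneg _) (norm_h n b) 2

omit hp [NormedAlgebra ℚ_[p] C] in
lemma norm_sum {s : Finset ℕ} {f : ℕ → C} {a : ℝ} (ha : 0 ≤ a) (h : ∀ i ∈ s, ‖f i‖ ≤ a) : ‖∑ i ∈ s, f i‖ ≤ a :=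
  IsUltrametricDist.norm_sum_le_of_forall_le_of_nonneg ha h

/-! ## the character -/

variable {N : ℕ} (ψ : MulChar (ZMod N) C)

omit [NormedAlgebra ℚ_[p] C] [IsUltrametricDist C] hp in
lemma norm_psi (hN : N ≠ 0) (x : ZMod N) : ‖ψ x‖ ≤ 1 := by
  by_cases hx : IsUnit x
  · have : NeZero N := ⟨hN⟩
    obtain ⟨u, rfl⟩ := hx
    have h1 : (ψ (u : ZMod N)) ^ Fintype.card (ZMod N)ˣ = 1 := by
      rw [← map_pow, ← Units.val_pow_eq_pow_val, pow_card_eq_one, Units.val_one, map_one]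
    have h2 : ‖ψ (u : ZMod N)‖ ^ Fintype.card (ZMod N)ˣ = 1 := by rw [← norm_pow, h1, norm_one]
    have h3 : Fintype.card (ZMod N)ˣ ≠ 0 := Fintype.card_ne_zero
    exact ((pow_eq_one_iff_of_nonneg (norm_nonneg _) h3).1 h2).le
  · rw [ψ.map_nonunit hx]
    simp

omit [NormedAlgebra ℚ_[p] C] [IsUltrametricDist C] hp in
lemma sum_aff (hN : N ≠ 0) (hψ : ∑ c ∈ range N, ψ (c : ZMod N) = 0) (a M : ℕ) (hM : M.Coprime N) :
    ∑ b ∈ range N, ψ ((a + M * b : ℕ) : ZMod N) = 0 := by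
  have : NeZero N := ⟨hN⟩
  have hr : ∀ g : ZMod N → C, ∑ b ∈ range N, g (b : ZMod N) = ∑ y : ZMod N, g y := by
    intro g
    refine Finset.sum_nbij' (fun b => (b : ZMod N)) ZMod.val ?_ ?_ ?_ ?_ ?_
    · intro b _; exact Finset.mem_univ _
    · intro y _; exact Finset.mem_range.2 (ZMod.val_lt y)
    · intro b hb; exact ZMod.val_cast_of_lt (Finset.mem_range.1 hb)
    · intro y _; exact ZMod.natCast_zmod_val y
    · intro b _; rfl
  have h1 := hr fun y => ψ ((a : ZMod N) + M * y)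
  have h2 : ∑ y : ZMod N, ψ ((a : ZMod N) + M * y) = ∑ y : ZMod N, ψ y := by
    refine Fintype.sum_bijective (fun y : ZMod N => (a : ZMod N) + M * y) ?_ _ _ fun y => rfl
    have hinj : Function.Injective fun y : ZMod N => (a : ZMod N) + M * y := by
      intro x y hxy
      have h3 : (M : ZMod N) * x = M * y := by simpa using hxy
      have hu : IsUnit (M : ZMod N) := (ZMod.isUnit_iff_coprime M N).2 hM
      exact hu.mul_left_cancel h3
    exact (Finite.injective_iff_bijective).1 hinj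
  rw [← hr ψ, hψ] at h2
  rw [← h2, ← h1]
  refine Finset.sum_congr rfl fun b _ => ?_
  push_cast
  rfl

/-- `∑_{b < N} b ψ(a + p^n b)` -/
noncomputable def B (p n a : ℕ) : C := ∑ b ∈ range N, (b : C) * ψ ((a + p ^ n * b : ℕ) : ZMod N)

lemma B_compat (hN : N ≠ 0) (hψ : ∑ c ∈ range N, ψ (c : ZMod N) = 0) (hpN : p.Coprime N) (n a : ℕ) :
    ∑ i ∈ range p, B ψ p (n + 1) (a + p ^ n * i) = B ψ p n a := by
  have hp0 : (p : C) ≠ 0 := nat_ne (p := p) hp.out.ne_zero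
  have h1 : ∑ j ∈ range (p * N), (j : C) * ψ ((a + p ^ n * j : ℕ) : ZMod N) = p * ∑ i ∈ range p, B ψ p (n + 1) (a + p ^ n * i) := by
    rw [split, Finset.sum_comm, Finset.mul_sum]
    refine Finset.sum_congr rfl fun i _ => ?_
    have h2 : ∀ b ∈ range N, ((i + p * b : ℕ) : C) * ψ ((a + p ^ n * (i + p * b) : ℕ) : ZMod N) =
        i * ψ (((a + p ^ n * i) + p ^ (n + 1) * b : ℕ) : ZMod N) +
        p * ((b : C) * ψ (((a + p ^ n * i) + p ^ (n + 1) * b : ℕ) : ZMod N)) := by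
      intro b _
      have h3 : a + p ^ n * (i + p * b) = (a + p ^ n * i) + p ^ (n + 1) * b := by ring
      rw [h3]
      push_cast
      ring
    rw [Finset.sum_congr rfl h2, Finset.sum_add_distrib, ← Finset.mul_sum, ← Finset.mul_sum,
      sum_aff ψ hN hψ _ _ (Nat.Coprime.pow_left _ hpN), mul_zero, zero_add]
    rfl
  have h4 : ∑ j ∈ range (p * N), (j : C) * ψ ((a + p ^ n * j : ℕ) : ZMod N) = p * B ψ p n a := by
    rw [mul_comm p N, split]
    have h2 : ∀ t ∈ range p, ∑ b ∈ range N, ((b + N * t : ℕ) : C) * ψ ((a + p ^ n * (b + N * t) : ℕ) : ZMod N) =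
        B ψ p n a := by
      intro t _
      have h3 : ∀ b ∈ range N, ((b + N * t : ℕ) : C) * ψ ((a + p ^ n * (b + N * t) : ℕ) : ZMod N) =
          (b : C) * ψ ((a + p ^ n * b : ℕ) : ZMod N) + (N * t : C) * ψ ((a + p ^ n * b : ℕ) : ZMod N) := by
        intro b _
        have h5 : ((a + p ^ n * (b + N * t) : ℕ) : ZMod N) = ((a + p ^ n * b : ℕ) : ZMod N) := by
          push_cast
          rw [ZMod.natCast_self]
          ring
        rw [h5]
        push_cast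
        ring
      rw [Finset.sum_congr rfl h3, Finset.sum_add_distrib, ← Finset.mul_sum,
        sum_aff ψ hN hψ _ _ (Nat.Coprime.pow_left _ hpN), mul_zero, add_zero]
      rfl
    rw [Finset.sum_congr rfl h2, Finset.sum_const, card_range, nsmul_eq_mul]
  exact mul_left_cancel₀ hp0 (h1.symm.trans h4)

lemma norm_B (hN : N ≠ 0) (n a : ℕ) : ‖B ψ p n a‖ ≤ 1 :=
  norm_sum zero_le_one fun b _ => norm_mul_le' zero_le_one (norm_nat_le (p := p) b) (norm_psi ψ hN _)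

/-- the integral sums -/
noncomputable def I (p s n : ℕ) : C := ∑ a ∈ range (p ^ n), w p C a ^ (s + 1) * B ψ p n a

noncomputable def T (p s n : ℕ) : C := ∑ x ∈ range (p ^ n * N), ψ (x : ZMod N) * w p C x ^ s

lemma norm_I (hN : N ≠ 0) (s n : ℕ) : ‖I ψ p s n‖ ≤ 1 :=
  norm_sum zero_le_one fun a _ => norm_mul_le' zero_le_one (norm_pow_le (norm_w (p := p) _) _) (norm_B ψ hN n a)

lemma est_I (hN : N ≠ 0) (hψ : ∑ c ∈ range N, ψ (c : ZMod N) = 0) (hpN : p.Coprime N) (s : ℕ) {n : ℕ} (hn : 1 ≤ n) :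
    ‖I ψ p s (n + 1) - I ψ p s n‖ ≤ q p ^ n := by
  have h1 : I ψ p s (n + 1) - I ψ p s n = ∑ a ∈ range (p ^ n), ∑ i ∈ range p,
      B ψ p (n + 1) (a + p ^ n * i) * (w p C (a + p ^ n * i) ^ (s + 1) - w p C a ^ (s + 1)) := by
    unfold I
    rw [pow_succ, split, Finset.sum_comm, ← Finset.sum_sub_distrib]
    refine Finset.sum_congr rfl fun a _ => ?_
    rw [← B_compat ψ hN hψ hpN n a, Finset.mul_sum, ← Finset.sum_sub_distrib]
    refine Finset.sum_congr rfl fun i _ => ?_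
    ring
  rw [h1]
  exact norm_sum (pow_nonneg q_nonneg _) fun a _ => norm_sum (pow_nonneg q_nonneg _) fun i _ =>
    norm_mul_le' (pow_nonneg q_nonneg _) (norm_B ψ hN _ _) (w_pow_diff hn a i _)

lemma est_T (hN : N ≠ 0) (hψ : ∑ c ∈ range N, ψ (c : ZMod N) = 0) (hpN : p.Coprime N) (s : ℕ) {n : ℕ} (hn : 1 ≤ n) :
    ‖T ψ p s n + s * (p : C) ^ n * I ψ p s n‖ ≤ (q p ^ n) ^ 2 := by
  have hq0 : (0 : ℝ) ≤ (q p ^ n) ^ 2 := by positivity
  have h1 : T ψ p s n + s * (p : C) ^ n * I ψ p s n = ∑ a ∈ range (p ^ n), ∑ b ∈ range N,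
      ψ ((a + p ^ n * b : ℕ) : ZMod N) *
        (w p C (a + p ^ n * b) ^ s - w p C a ^ s + s * ((p : C) ^ n * b) * w p C a ^ (s + 1)) := by
    unfold T I
    rw [split, Finset.sum_comm, Finset.mul_sum, ← Finset.sum_add_distrib]
    refine Finset.sum_congr rfl fun a _ => ?_
    have h2 : ∀ b ∈ range N, ψ ((a + p ^ n * b : ℕ) : ZMod N) *
        (w p C (a + p ^ n * b) ^ s - w p C a ^ s + s * ((p : C) ^ n * b) * w p C a ^ (s + 1)) =
        ψ ((a + p ^ n * b : ℕ) : ZMod N) * w p C (a + p ^ n * b) ^ s - w p C a ^ s * ψ ((a + p ^ n * b : ℕ) : ZMod N) +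
        (s * (p : C) ^ n * w p C a ^ (s + 1)) * ((b : C) * ψ ((a + p ^ n * b : ℕ) : ZMod N)) := by
      intro b _
      ring
    rw [Finset.sum_congr rfl h2, Finset.sum_add_distrib, Finset.sum_sub_distrib, ← Finset.mul_sum, ← Finset.mul_sum,
      sum_aff ψ hN hψ _ _ (Nat.Coprime.pow_left _ hpN), mul_zero, sub_zero]
    unfold B
    ring
  rw [h1]
  exact norm_sum hq0 fun a _ => norm_sum hq0 fun b _ => norm_mul_le' hq0 (norm_psi ψ hN _) (w_second hn a b s)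

/-- the limit of the integral sums -/
theorem I_lim [CompleteSpace C] (hN : N ≠ 0) (hψ : ∑ c ∈ range N, ψ (c : ZMod N) = 0) (hpN : p.Coprime N) (s : ℕ)
    (h1 : ‖I ψ p s 1‖ = 1) : ∃ z : C, ‖z‖ = 1 ∧ Tendsto (I ψ p s) atTop (𝓝 z) := by
  have hc : CauchySeq fun n => I ψ p s (n + 1) := by
    refine cauchySeq_of_le_geometric (q p) (q p) q_lt fun n => ?_
    rw [dist_comm, dist_eq_norm, ← pow_succ']
    exact est_I ψ hN hψ hpN s (by omega)
  obtain ⟨z, hz⟩ := cauchySeq_tendsto_of_complete hc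
  have hz' : Tendsto (I ψ p s) atTop (𝓝 z) := (tendsto_add_atTop_iff_nat 1).1 hz
  refine ⟨z, ?_, hz'⟩
  have h2 : ∀ n, ‖I ψ p s (n + 1) - I ψ p s 1‖ ≤ q p := by
    intro n
    induction n with
    | zero => simp [q_nonneg]
    | succ n ih =>
      have h3 : I ψ p s (n + 1 + 1) - I ψ p s 1 = (I ψ p s (n + 1 + 1) - I ψ p s (n + 1)) +
          (I ψ p s (n + 1) - I ψ p s 1) := by ring
      rw [h3]
      refine norm_add_le' ((est_I ψ hN hψ hpN s (by omega)).trans ?_) ih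
      calc q p ^ (n + 1) ≤ q p ^ 1 := pow_le_pow_of_le_one q_nonneg q_lt.le (by omega)
        _ = q p := pow_one _
  have h4 : ‖z - I ψ p s 1‖ ≤ q p :=
    le_of_tendsto ((hz.sub_const _).norm) (Eventually.of_forall h2)
  have h5 : z = I ψ p s 1 + (z - I ψ p s 1) := by ring
  have h6 : ‖I ψ p s 1‖ ≠ ‖z - I ψ p s 1‖ := by
    rw [h1]
    exact (h4.trans_lt q_lt).ne'
  rw [h5, IsUltrametricDist.norm_add_eq_max_of_norm_ne_norm h6, h1]
  exact max_eq_left (h4.trans q_lt.le)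

/-- the limit of the approximants -/
theorem T_lim [CompleteSpace C] (hN : N ≠ 0) (hψ : ∑ c ∈ range N, ψ (c : ZMod N) = 0) (hpN : p.Coprime N) {s : ℕ}
    (hs : 1 ≤ s) (h1 : ‖I ψ p s 1‖ = 1) :
    ∃ z : C, ‖z‖ = 1 ∧ Tendsto (fun n => T ψ p s n / (s * (N * (p : C) ^ n))) atTop (𝓝 z) := by
  obtain ⟨z, hz, ht⟩ := I_lim ψ hN hψ hpN s h1
  have hp0 : (p : C) ≠ 0 := nat_ne (p := p) hp.out.ne_zero
  have hN0 : (N : C) ≠ 0 := nat_ne (p := p) hN
  have hs0 : (s : C) ≠ 0 := nat_ne (p := p) (by omega)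
  have hNn : ‖(N : C)‖ = 1 := norm_nat_one (p := p) ((Nat.Prime.coprime_iff_not_dvd hp.out).1 hpN)
  refine ⟨- z / N, ?_, ?_⟩
  · rw [norm_div, norm_neg, hz, hNn, div_one]
  · have h2 : ∀ n, T ψ p s n / (s * (N * (p : C) ^ n)) = - I ψ p s n / N +
        (T ψ p s n + s * (p : C) ^ n * I ψ p s n) / (s * (N * (p : C) ^ n)) := by
      intro n
      have : (p : C) ^ n ≠ 0 := pow_ne_zero _ hp0
      field_simp
      ring
    have h3 : Tendsto (fun n => (T ψ p s n + s * (p : C) ^ n * I ψ p s n) / (s * (N * (p : C) ^ n))) atTop (𝓝 0) := by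
      have h4 : Tendsto (fun n : ℕ => ‖(s : C)‖⁻¹ * q p ^ n) atTop (𝓝 0) := by
        have := (tendsto_pow_atTop_nhds_zero_of_lt_one (q_nonneg (p := p)) (q_lt (p := p))).const_mul ‖(s : C)‖⁻¹
        rwa [mul_zero] at this
      refine squeeze_zero_norm' ?_ h4
      filter_upwards [eventually_ge_atTop 1] with n hn
      rw [norm_div, norm_mul, norm_mul, hNn, one_mul, norm_pow, norm_pp (p := p)]
      have h5 : (0 : ℝ) < q p ^ n := by
        unfold q
        have := hp.out.pos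
        positivity
      have h6 : (0 : ℝ) < ‖(s : C)‖ := norm_pos_iff.2 hs0
      rw [div_le_iff₀ (by exact mul_pos h6 h5)]
      calc ‖T ψ p s n + s * (p : C) ^ n * I ψ p s n‖ ≤ (q p ^ n) ^ 2 := est_T ψ hN hψ hpN s hn
        _ = ‖(s : C)‖⁻¹ * q p ^ n * (‖(s : C)‖ * (p : ℝ)⁻¹ ^ n) := by
          change _ = ‖(s : C)‖⁻¹ * q p ^ n * (‖(s : C)‖ * q p ^ n)
          field_simp
    have h7 := (ht.neg.div_const (N : C)).add h3
    rw [add_zero] at h7
    exact h7.congr fun n => (h2 n).symm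

end

end Pool.Agent.X218.LP
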