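import Pool.Agent.X218.LP.Fin
import Pool.Agent.X218.GX.Five

/-!
# Units at positive integers: `p = 5` and all conductors `2^a 3^b`
-/

set_option autoImplicit false
set_option maxRecDepth 100000

namespace Pool.Agent.X218.LP

open Finset Filter Topology Polynomial Pool.Agent.Y18.GX
open Pool.Agent.X218.GX

section
variable {p : ℕ} [hp : Fact p.Prime] {C : Type} [NormedField C] [NormedAlgebra ℚ_[p] C] [IsUltrametricDist C]

lemma rho_ne_one {k : Type} [Field k] [CharP k p] (ρ : OO C →+* k) {n : ℕ} (hn : ¬ p ∣ n) {ζ : OO C} (hζ : ζ ^ n = 1)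
    (h1 : ζ ≠ 1) : ρ ζ ≠ 1 := by
  intro h
  have h2 : (ζ - 1) * ∑ i ∈ range n, ζ ^ i = 0 := by
    rw [mul_comm, geom_sum_mul, hζ, sub_self]
  have h3 : ∑ i ∈ range n, ζ ^ i = 0 := (mul_eq_zero.1 h2).resolve_left (sub_ne_zero.2 h1)
  have h4 := congrArg ρ h3
  rw [map_sum, map_zero] at h4
  simp only [map_pow, h, one_pow, Finset.sum_const, Finset.card_range, nsmul_eq_mul, mul_one] at h4
  exact hn ((CharP.cast_eq_zero_iff k p n).1 h4)

omit hp [NormedAlgebra ℚ_[p] C] [IsUltrametricDist C] in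
/-- a primitive character is not trivial on the units which are `1` modulo `N / q` -/
lemma prim_unit' {N q : ℕ} (hN : N ≠ 0) (hq : q ≠ 1) (hqN : q ∣ N) (ψ : DirichletCharacter C N) (hprim : ψ.IsPrimitive) :
    ∃ a : ℕ, a ≡ 1 [MOD N / q] ∧ IsUnit (a : ZMod N) ∧ ψ (a : ZMod N) ≠ 1 := by
  by_contra hcon
  push Not at hcon
  have : NeZero N := ⟨hN⟩
  have hd : N / q ∣ N := Nat.div_dvd_of_dvd hqN
  have h2 : ψ.FactorsThrough (N / q) := by
    rw [DirichletCharacter.factorsThrough_iff_ker_unitsMap hd]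
    intro U hU
    rw [MonoidHom.mem_ker] at hU ⊢
    have h3 : ((U : ZMod N).cast : ZMod (N / q)) = 1 := by
      have := congrArg Units.val hU
      simpa [ZMod.unitsMap] using this
    set a := (U : ZMod N).val with ha
    have haU : ((a : ℕ) : ZMod N) = U := by rw [ha, ZMod.natCast_val, ZMod.cast_id', id_eq]
    have h4 : a ≡ 1 [MOD N / q] := by
      rw [← ZMod.natCast_eq_natCast_iff, Nat.cast_one, ← h3, ha, ZMod.natCast_val]
    have h9 := hcon a h4 (by rw [haU]; exact U.isUnit)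
    apply Units.ext
    rw [MulChar.coe_toUnitHom, ← haU, h9, Units.val_one]
  have h3 := DirichletCharacter.conductor_dvd_of_mem_conductorSet (χ := ψ) (d := N / q) h2
  rw [DirichletCharacter.isPrimitive_def] at hprim
  rw [hprim] at h3
  have hq0 : q ≠ 0 := by
    rintro rfl
    exact hN (Nat.eq_zero_of_zero_dvd hqN)
  have h4 := Nat.le_of_dvd (Nat.div_pos (Nat.le_of_dvd (Nat.pos_of_ne_zero hN) hqN) (Nat.pos_of_ne_zero hq0)) h3
  have h5 := Nat.div_lt_self (Nat.pos_of_ne_zero hN) (show 1 < q by omega)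
  omega

omit hp [NormedAlgebra ℚ_[p] C] [IsUltrametricDist C] in
lemma sum_char' {N : ℕ} (hN : N ≠ 0) (ψ : MulChar (ZMod N) C) (hne : ψ ≠ 1) :
    ∑ c ∈ range N, ψ (c : ZMod N) = 0 := by
  have : NeZero N := ⟨hN⟩
  rw [← MulChar.sum_eq_zero_of_ne_one hne]
  refine Finset.sum_nbij' (fun b => (b : ZMod N)) ZMod.val ?_ ?_ ?_ ?_ ?_
  · intro b _; exact Finset.mem_univ _
  · intro y _; exact Finset.mem_range.2 (ZMod.val_lt y)
  · intro b hb; exact ZMod.val_cast_of_lt (Finset.mem_range.1 hb)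
  · intro y _; exact ZMod.natCast_zmod_val y
  · intro b _; rfl

variable [CompleteSpace C]

theorem lval2 {N : ℕ} (ψ : MulChar (ZMod N) C) (hN : N ≠ 0) (hpN : p.Coprime N) (hφ : ¬ p ∣ N.totient)
    (hodd : p % 2 = 1)
    (hψ : ∑ c ∈ range N, ψ (c : ZMod N) = 0) {r m : ℕ} (hr : 2 ≤ r) (hm1 : 1 ≤ m) (hmp : m < p)
    (hrm : p - 1 ∣ r - 1 + m) (hpar : ψ (-1) = (-1) ^ (r - 1))
    (hcore : ∀ (k : Type) [Field k] [CharP k p] (χ : MulChar (ZMod N) k),
      (∀ x, IsUnit x → ψ x ≠ 1 → χ x ≠ 1) → χ (-1) = (-1) ^ m →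
      (∑ a ∈ range N, χ (a : ZMod N) * ff k N m a ≠ 0) ∧
      (m = 1 → χ (p : ZMod N) ≠ 1)) : HasUnitLimit p C ψ r := by
  rw [par_eq hodd hrm] at hpar
  refine lval ψ hN hpN hψ hr hm1 hmp hrm ?_
  intro k _ _ χ ρ hχ
  refine hcore k χ ?_ ?_
  · intro x hx hne
    rw [hχ]
    refine rho_ne_one ρ hφ ?_ ?_
    · apply Subtype.ext
      rw [Subring.coe_pow]
      change ψ x ^ N.totient = 1
      obtain ⟨u, rfl⟩ := hx
      have : NeZero N := ⟨hN⟩
      rw [← map_pow, ← Units.val_pow_eq_pow_val, ZMod.pow_totient, Units.val_one, map_one]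
    · intro h
      apply hne
      have := congrArg Subtype.val h
      exact this
  · rw [hχ]
    have : (⟨ψ (-1), norm_psi ψ hN _⟩ : OO C) = (-1) ^ m := by
      apply Subtype.ext
      rw [Subring.coe_pow]
      exact hpar
    rw [this, map_pow, map_neg, map_one]

end

section
variable [h5 : Fact (Nat.Prime 5)] {C : Type} [NormedField C] [NormedAlgebra ℚ_[5] C] [IsUltrametricDist C] [CompleteSpace C]

theorem five_core' {a b m r : ℕ} (hr : 2 ≤ r) (hrm : 5 - 1 ∣ r - 1 + m) (ha : 2 ≤ a) (hm1 : 1 ≤ m) (hm4 : m ≤ 4)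
    (e4 : ¬ (2 ^ a * 3 ^ b = 4 ∧ m = 1)) (e24 : ¬ (2 ^ a * 3 ^ b = 24 ∧ m = 1)) (e16 : ¬ (2 ^ a * 3 ^ b = 16 ∧ m = 2))
    (e48 : ¬ (2 ^ a * 3 ^ b = 48 ∧ m = 3)) (e36 : ¬ (2 ^ a * 3 ^ b = 36 ∧ m = 4))
    (ψ : DirichletCharacter C (2 ^ a * 3 ^ b)) (hprim : ψ.IsPrimitive) (hpar : ψ (-1) = (-1) ^ (r - 1)) :
    HasUnitLimit 5 C ψ r := by
  have hN0 : 2 ^ a * 3 ^ b ≠ 0 := by positivity
  have h4le : 4 ≤ 2 ^ a := by
    calc 4 = 2 ^ 2 := by norm_num
      _ ≤ 2 ^ a := Nat.pow_le_pow_right (by norm_num) ha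
  have hN1 : 2 ^ a * 3 ^ b ≠ 1 := by
    have : 1 ≤ 3 ^ b := Nat.one_le_pow _ _ (by norm_num)
    nlinarith
  have hψ1 : ψ ≠ 1 := by
    intro h
    have : NeZero (2 ^ a * 3 ^ b) := ⟨hN0⟩
    rw [h, DirichletCharacter.isPrimitive_def, DirichletCharacter.conductor_one] at hprim
    exact hN1 hprim.symm
  have h2N : 2 ∣ 2 ^ a * 3 ^ b := (dvd_pow_self 2 (by omega)).mul_right _
  have hdiv2 : 2 ^ a * 3 ^ b / 2 = 2 ^ (a - 1) * 3 ^ b := by
    have : 2 ^ a * 3 ^ b = 2 * (2 ^ (a - 1) * 3 ^ b) := by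
      rw [← mul_assoc, ← pow_succ']
      congr 2
      omega
    rw [this, Nat.mul_div_cancel_left _ (by norm_num)]
  obtain ⟨x2, hx2, hu2, hn2⟩ := prim_unit' hN0 (by norm_num : 2 ≠ 1) h2N ψ hprim
  rw [hdiv2] at hx2
  have hp3 : b ≠ 0 → ∃ x : ℕ, x ≡ 1 [MOD 2 ^ a * 3 ^ (b - 1)] ∧ IsUnit ((x : ℕ) : ZMod (2 ^ a * 3 ^ b)) ∧
      ψ ((x : ℕ) : ZMod (2 ^ a * 3 ^ b)) ≠ 1 := by
    intro hb
    have h3N : 3 ∣ 2 ^ a * 3 ^ b := (dvd_pow_self 3 hb).mul_left _
    obtain ⟨x, h1, h2, h3⟩ := prim_unit' hN0 (by norm_num : 3 ≠ 1) h3N ψ hprim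
    have hdiv3 : 2 ^ a * 3 ^ b / 3 = 2 ^ a * 3 ^ (b - 1) := by
      have : 2 ^ a * 3 ^ b = 3 * (2 ^ a * 3 ^ (b - 1)) := by
        rw [← mul_assoc, mul_comm 3, mul_assoc, ← pow_succ']
        congr 2
        omega
      rw [this, Nat.mul_div_cancel_left _ (by norm_num)]
    rw [hdiv3] at h1
    exact ⟨x, h1, h2, h3⟩
  have h5cop : Nat.Coprime 5 (2 ^ a * 3 ^ b) :=
    (Nat.Prime.coprime_iff_not_dvd (by norm_num)).2 (five_not_dvd a b)
  refine lval2 ψ hN0 h5cop (totient_five a b) (by norm_num) (sum_char' hN0 ψ hψ1) hr hm1 (by omega) hrm hpar ?_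
  intro k _ _ χ hinj hparχ
  have hcop : (2 ^ a).Coprime (3 ^ b) := Nat.Coprime.pow _ _ (by norm_num)
  set χ₁ := fstk hcop χ with hχ₁
  set χ₂ := sndk hcop χ with hχ₂
  have hdec : ∀ x : ℕ, χ ((x : ℕ) : ZMod (2 ^ a * 3 ^ b)) = χ₁ ((x : ℕ) : ZMod (2 ^ a)) * χ₂ ((x : ℕ) : ZMod (3 ^ b)) :=
    deck_nat hcop χ
  rw [deck_neg hcop χ, ← hχ₁, ← hχ₂] at hparχ
  -- primitivity at `2`
  have hpr1 : χ₁ ((1 + 2 ^ (a - 1) : ℕ) : ZMod (2 ^ a)) ≠ 1 := by
    have h1 := hinj _ hu2 hn2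
    rw [hdec] at h1
    have h2 : ((x2 : ℕ) : ZMod (3 ^ b)) = 1 := by
      rw [← Nat.cast_one, ZMod.natCast_eq_natCast_iff]
      exact hx2.of_dvd (dvd_mul_left _ _)
    rw [h2, map_one, mul_one] at h1
    exact comp_prim (by norm_num) ha χ₁ (hx2.of_dvd (dvd_mul_right _ _)) h1
  unfold ff
  rcases Nat.lt_or_ge b 2 with hb | hb
  · -- `b ≤ 1`
    have h3 : b = 1 → χ₂ ((2 : ℕ) : ZMod (3 ^ b)) ≠ 1 := by
      intro hb1
      obtain ⟨x, h1, h2, h4⟩ := hp3 (by omega)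
      have h5 := hinj _ h2 h4
      rw [hdec] at h5
      have h6 : ((x : ℕ) : ZMod (2 ^ a)) = 1 := by
        rw [← Nat.cast_one, ZMod.natCast_eq_natCast_iff]
        exact h1.of_dvd (dvd_mul_right _ _)
      rw [h6, map_one, one_mul] at h5
      subst hb1
      have h7 : ((x : ℕ) : ZMod (3 ^ 1)) = ((x % 3 : ℕ) : ZMod (3 ^ 1)) := by
        rw [ZMod.natCast_eq_natCast_iff]
        exact (Nat.mod_modEq x 3).symm
      rw [h7] at h5
      have : x % 3 = 0 ∨ x % 3 = 1 ∨ x % 3 = 2 := by omega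
      rcases this with h | h | h
      · exfalso
        have h8 := (ZMod.isUnit_iff_coprime x (2 ^ a * 3 ^ 1)).1 h2
        have h9 : 3 ∣ Nat.gcd x (2 ^ a * 3 ^ 1) := Nat.dvd_gcd (Nat.dvd_of_mod_eq_zero h) (by
          rw [pow_one]
          exact dvd_mul_left _ _)
        rw [h8] at h9
        omega
      · rw [h, Nat.cast_one, map_one] at h5
        exact absurd rfl h5
      · rw [h] at h5
        exact h5
    rcases Nat.lt_or_ge a 4 with ha4 | ha4
    · -- `a = 2, 3`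
      have ha' : a = 2 ∨ a = 3 := by omega
      refine ⟨?_, ?_⟩
      · have h := c1 χ₁ χ₂ ha' (by omega) hm1 hm4 h3 hpr1 hparχ
        simp only [← hdec] at h
        exact h
      · rintro rfl
        have hb' : b = 0 ∨ b = 1 := by omega
        rcases ha' with rfl | rfl
        · rcases hb' with rfl | rfl
          · exact absurd ⟨by norm_num, rfl⟩ e4
          · -- parity
            exfalso
            have hη2 : χ₁ ((1 + 2 ^ (2 - 1) : ℕ) : ZMod (2 ^ 2)) ^ 2 = 1 := by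
              have := Pool.Agent.Y18.GX.psi_M_pow χ₁ (n := 1) (by omega)
              rwa [pow_one] at this
            have hη := (eq_one_or hη2).resolve_left hpr1
            have h1 : (-1 : ZMod (2 ^ 2)) = ((1 + 2 ^ (2 - 1) : ℕ) : ZMod (2 ^ 2)) := by decide +kernel
            have h2 : χ₂ (-1) = -1 := by
              have h4 : ((2 : ℕ) : ZMod (3 ^ 1)) = -1 := by decide +kernel
              have h5 := h3 rfl
              rw [h4] at h5
              have h6 : χ₂ (-1) ^ 2 = 1 := by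
                rw [← map_pow]
                simp
              exact (eq_one_or h6).resolve_left h5
            rw [h1, hη, h2] at hparχ
            apply neg_one_ne_one (k := k)
            rw [pow_one] at hparχ
            rw [← hparχ]
            ring
        · rcases hb' with rfl | rfl
          · have h1 := hdec 5
            have h2 : ((5 : ℕ) : ZMod (3 ^ 0)) = 1 := sub30 _ _
            have h4 : ((1 + 2 ^ (3 - 1) : ℕ) : ZMod (2 ^ 3)) = ((5 : ℕ) : ZMod (2 ^ 3)) := by decide +kernel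
            rw [h4] at hpr1
            rw [h1, h2, map_one, mul_one]
            exact hpr1
          · exact absurd ⟨by norm_num, rfl⟩ e24
    · -- `a ≥ 4`
      have hex1 : ¬ (a = 4 ∧ b = 0 ∧ m = 2) := by
        rintro ⟨rfl, rfl, rfl⟩
        exact e16 ⟨by norm_num, rfl⟩
      have hex2 : ¬ (a = 4 ∧ b = 1 ∧ m = 3) := by
        rintro ⟨rfl, rfl, rfl⟩
        exact e48 ⟨by norm_num, rfl⟩
      refine ⟨?_, ?_⟩
      · have h := c3 χ₂ χ₁ (by omega) ha4 hm1 hm4 hex1 hex2 h3 hpr1 (by rw [mul_comm]; exact hparχ)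
        have e1 : 3 ^ b * 2 ^ a = 2 ^ a * 3 ^ b := mul_comm _ _
        rw [e1] at h
        intro h0
        apply h
        rw [← h0]
        refine Finset.sum_congr rfl fun x _ => ?_
        rw [hdec]
        ring
      · intro _
        have h := eul2 χ₂ χ₁ (by omega) ha4 hpr1
        have h1 := hdec 5
        rw [h1, mul_comm]
        exact h
  · -- `b ≥ 2`
    have hpr2 : χ₂ ((1 + 3 ^ (b - 1) : ℕ) : ZMod (3 ^ b)) ≠ 1 := by
      obtain ⟨x, h1, h2, h4⟩ := hp3 (by omega)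
      have h5 := hinj _ h2 h4
      rw [hdec] at h5
      have h6 : ((x : ℕ) : ZMod (2 ^ a)) = 1 := by
        rw [← Nat.cast_one, ZMod.natCast_eq_natCast_iff]
        exact h1.of_dvd (dvd_mul_right _ _)
      rw [h6, map_one, one_mul] at h5
      exact comp_prim (by norm_num) hb χ₂ (h1.of_dvd (dvd_mul_left _ _)) h5
    refine ⟨?_, ?_⟩
    · rcases Nat.lt_or_ge a 6 with ha6 | ha6
      · have h := c2 χ₁ χ₂ ha (by omega) hb hm1 hm4 (by
          rintro ⟨rfl, rfl, rfl⟩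
          exact e36 ⟨by norm_num, rfl⟩) hpr1 hpr2 hparχ
        simp only [← hdec] at h
        exact h
      · have h := c4 χ₁ χ₂ ha6 hb hm1 hm4 hpr1 hpr2 hparχ
        simp only [← hdec] at h
        exact h
    · intro _
      have h := eul3 χ₁ χ₂ hb hpr2
      have h1 := hdec 5
      rw [h1]
      exact h

omit h5 [NormedAlgebra ℚ_[5] C] [IsUltrametricDist C] [CompleteSpace C] in
/-- there is no primitive character modulo `2 N` with `N` odd -/
lemma no_prim' {b : ℕ} (ψ : DirichletCharacter C (2 * 3 ^ b)) (hprim : ψ.IsPrimitive) : False := by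
  obtain ⟨x, h1, h2, h3⟩ := prim_unit' (by positivity) (by norm_num : 2 ≠ 1) (dvd_mul_right 2 (3 ^ b)) ψ hprim
  apply h3
  rw [Nat.mul_div_cancel_left _ (by norm_num)] at h1
  have h4 : x ≡ 1 [MOD 2] := by
    have h5 := (ZMod.isUnit_iff_coprime x (2 * 3 ^ b)).1 h2
    have h6 : ¬ 2 ∣ x := by
      intro h
      have h9 : 2 ∣ Nat.gcd x (2 * 3 ^ b) := Nat.dvd_gcd h (dvd_mul_right _ _)
      rw [h5] at h9
      omega
    change x % 2 = 1 % 2
    omega
  have h5 : x ≡ 1 [MOD 2 * 3 ^ b] :=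
    (Nat.modEq_and_modEq_iff_modEq_mul (Nat.Coprime.pow_right _ (by norm_num))).1 ⟨h4, h1⟩
  have h6 : ((x : ℕ) : ZMod (2 * 3 ^ b)) = 1 := by
    rw [← Nat.cast_one, ZMod.natCast_eq_natCast_iff]
    exact h5
  rw [h6, map_one]

/-- `p = 5`, all conductors `2^a 3^b` -/
theorem five_all' {N r : ℕ} (hN0 : N ≠ 0) (hN : N.primeFactors ⊆ {2, 3}) (hr : 2 ≤ r)
    (e1 : N = 1 → r % 4 ≠ 1) (e4 : N = 4 → r % 4 ≠ 0) (e24 : N = 24 → r % 4 ≠ 0) (e16 : N = 16 → r % 4 ≠ 3)
    (e48 : N = 48 → r % 4 ≠ 2) (e36 : N = 36 → r % 4 ≠ 1)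
    (ψ : DirichletCharacter C N) (hprim : ψ.IsPrimitive) (hpar : ψ (-1) = (-1) ^ (r - 1)) :
    HasUnitLimit 5 C ψ r := by
  obtain ⟨a, b, hab⟩ := two_three hN0 hN
  obtain ⟨m, hm1, hmp, hrm⟩ := exists_m (p := 5) (by norm_num) r
  rcases Nat.lt_or_ge a 2 with ha | ha
  · rcases Nat.lt_or_ge a 1 with ha' | ha'
    · have ha0 : a = 0 := by omega
      subst ha0
      rw [pow_zero, one_mul] at hab
      subst hab
      rcases Nat.eq_zero_or_pos b with hb | hb
      · subst hb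
        refine zero_lev (p := 5) (by norm_num) five_ok1.2 hr ?_ ψ hpar
        have := e1 (pow_zero _)
        omega
      · exact three_pow (p := 5) (by norm_num) (by norm_num) five_ok2 hb (fun _ => five_ok1.1) hr ψ hprim hpar
    · exfalso
      have ha1 : a = 1 := by omega
      subst ha1
      rw [pow_one] at hab
      subst hab
      exact no_prim' ψ hprim
  · subst hab
    exact five_core' hr hrm ha hm1 (by omega) (fun h => e4 h.1 (by omega)) (fun h => e24 h.1 (by omega))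
      (fun h => e16 h.1 (by omega)) (fun h => e48 h.1 (by omega)) (fun h => e36 h.1 (by omega)) ψ hprim hpar

end

end Pool.Agent.X218.LP
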