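import Pool.Agent.X218.GX.Ps

/-!
# The sum `∑ a^(m-1) b χ(a + p b)` in characteristic `p` is a Bernoulli sum
-/

set_option autoImplicit false

namespace Pool.Agent.X218.LP

open Finset Polynomial Pool.Agent.Y18.GX
open Pool.Agent.X218.GX (FF_aeval_nat FF_sub S S_eq)

lemma split {A : Type*} [AddCommMonoid A] (M n : ℕ) (f : ℕ → A) :
    ∑ x ∈ range (M * n), f x = ∑ b ∈ range n, ∑ a ∈ range M, f (a + M * b) := by
  induction n with
  | zero => simp
  | succ n ih =>
    rw [Nat.mul_succ, Finset.sum_range_add, ih, Finset.sum_range_succ]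
    congr 1
    refine Finset.sum_congr rfl fun a _ => ?_
    rw [add_comm]

section
variable {p : ℕ} {k : Type*} [Field k] [CharP k p]

lemma fac_ne (hp : p.Prime) {m : ℕ} (hm1 : 1 ≤ m) (hmp : m < p) : ((m.factorial * m : ℕ) : k) ≠ 0 := by
  intro h
  have h1 := (CharP.cast_eq_zero_iff k p _).1 h
  rcases (hp.dvd_mul).1 h1 with h2 | h2
  · have := (hp.dvd_factorial).1 h2
    omega
  · have := Nat.le_of_dvd (by omega) h2
    omega

/-- power sums over `p` consecutive integers -/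
lemma pow_sum (hp : p.Prime) {m : ℕ} (hm1 : 1 ≤ m) (hmp : m < p) (y : ℕ) :
    ∑ i ∈ range p, ((y + i : ℕ) : k) ^ (m - 1) = 0 := by
  have h1 := FF_sub (k := k) m y p hm1
  rw [Nat.cast_add, CharP.cast_eq_zero k p, add_zero, sub_self, S_eq, Nat.cast_mul] at h1
  have h2 := (mul_eq_zero.1 h1.symm).resolve_left (fac_ne hp hm1 hmp)
  rw [← h2]
  push_cast
  rfl

variable {N m : ℕ}

/-- `x^(m-1) ⌊x/p⌋` -/
def gg (k : Type*) [Field k] (p m x : ℕ) : k := (x : k) ^ (m - 1) * ((x / p : ℕ) : k)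

def hh (k : Type*) [Field k] (p N m c : ℕ) : k := ∑ i ∈ range p, gg k p m (c + N * i)

lemma hh_N (hp : p.Prime) (c : ℕ) : hh k p N m (c + N) = hh k p N m c + (N : k) * (c : k) ^ (m - 1) := by
  have h1 : hh k p N m (c + N) - hh k p N m c = gg k p m (c + N * p) - gg k p m (c + N * 0) := by
    rw [← Finset.sum_range_sub (fun i => gg k p m (c + N * i)), Finset.sum_sub_distrib]
    unfold hh
    congr 1
    refine Finset.sum_congr rfl fun i _ => ?_
    congr 1
    ring
  have h2 : gg k p m (c + N * p) = (c : k) ^ (m - 1) * (((c / p : ℕ) : k) + N) := by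
    unfold gg
    rw [Nat.add_mul_div_right _ _ hp.pos]
    push_cast
    rw [CharP.cast_eq_zero k p, mul_zero, add_zero]
  rw [h2] at h1
  unfold gg at h1
  simp only [mul_zero, add_zero] at h1
  linear_combination h1

lemma hh_p (hp : p.Prime) (hm1 : 1 ≤ m) (hmp : m < p) {N' : ℕ} (hN' : (N : k) * (N' : k) = 1) (c : ℕ) :
    hh k p N m (c + p) = hh k p N m c := by
  have h1 : ∀ x, gg k p m (x + p) = gg k p m x + (x : k) ^ (m - 1) := by
    intro x
    unfold gg
    rw [Nat.add_div_right _ hp.pos]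
    push_cast
    rw [CharP.cast_eq_zero k p, add_zero]
    ring
  unfold hh
  have h2 : ∀ i, gg k p m (c + p + N * i) = gg k p m (c + N * i) + ((c + N * i : ℕ) : k) ^ (m - 1) := by
    intro i
    rw [← h1]
    congr 1
    ring
  simp only [h2, Finset.sum_add_distrib]
  have h3 : ∑ i ∈ range p, ((c + N * i : ℕ) : k) ^ (m - 1) = (N : k) ^ (m - 1) *
      ∑ i ∈ range p, ((c * N' + i : ℕ) : k) ^ (m - 1) := by
    rw [Finset.mul_sum]
    refine Finset.sum_congr rfl fun i _ => ?_
    rw [← mul_pow]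
    congr 1
    push_cast
    linear_combination (-(c : k)) * hN'
  rw [h3, pow_sum hp hm1 hmp, mul_zero, add_zero]

/-- the values of `F_m` -/
noncomputable def ff (k : Type*) [Field k] (N m c : ℕ) : k := Polynomial.aeval ((c : k) / (N : ℕ)) (FF m)

lemma ff_N (hm1 : 1 ≤ m) {N' : ℕ} (hN' : (N : k) * (N' : k) = 1) (c : ℕ) :
    (N : k) ^ m * ff k N m (c + N) = (N : k) ^ m * ff k N m c + ((m.factorial * m : ℕ) : k) * ((N : k) * (c : k) ^ (m - 1)) := by
  have hN0 : (N : k) ≠ 0 := left_ne_zero_of_mul_eq_one hN'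
  have e1 : ((c : ℕ) : k) / (N : ℕ) = ((c * N' : ℕ) : k) := by
    rw [div_eq_iff hN0]
    push_cast
    linear_combination (-(c : k)) * hN'
  have e2 : ((c + N : ℕ) : k) / (N : ℕ) = ((c * N' + 1 : ℕ) : k) := by
    rw [div_eq_iff hN0]
    push_cast
    linear_combination (-(c : k)) * hN'
  have h1 := FF_sub (k := k) m (c * N') 1 hm1
  rw [S_eq, Finset.sum_range_one, add_zero] at h1
  unfold ff
  rw [e1, e2]
  obtain ⟨e, rfl⟩ : ∃ e, m = e + 1 := ⟨m - 1, by omega⟩
  have h3 : (N : k) ^ (e + 1) * ((c * N' : ℕ) : k) ^ e = (N : k) * (c : k) ^ e := by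
    have : (N : k) ^ e * ((c * N' : ℕ) : k) ^ e = (c : k) ^ e := by
      rw [← mul_pow]
      congr 1
      push_cast
      linear_combination (c : k) * hN'
    rw [pow_succ]
    linear_combination (N : k) * this
  rw [Nat.add_sub_cancel] at h1 ⊢
  rw [Nat.cast_mul ((e + 1).factorial * (e + 1)), Nat.cast_pow] at h1
  linear_combination (N : k) ^ (e + 1) * h1 + (((e + 1).factorial * (e + 1) : ℕ) : k) * h3

lemma ff_p (c : ℕ) : ff k N m (c + p) = ff k N m c := by
  unfold ff
  rw [Nat.cast_add, CharP.cast_eq_zero k p, add_zero]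

/-- the main identity -/
theorem res_J (hp : p.Prime) (hpN : N.Coprime p) (hN0 : N ≠ 0) (hm1 : 1 ≤ m) (hmp : m < p) (χ : MulChar (ZMod N) k)
    (hχ : ∑ c ∈ range N, χ (c : ZMod N) = 0) :
    ((m.factorial * m : ℕ) : k) * ∑ a ∈ range p, (a : k) ^ (m - 1) * ∑ b ∈ range N, (b : k) * χ ((a + p * b : ℕ) : ZMod N) =
      (N : k) ^ m * ∑ c ∈ range N, χ (c : ZMod N) * ff k N m c := by
  have : Fact p.Prime := ⟨hp⟩
  obtain ⟨N', hN'⟩ : ∃ N' : ℕ, (N : k) * (N' : k) = 1 := by
    refine ⟨N ^ (p - 2), ?_⟩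
    rw [← Nat.cast_mul, ← pow_succ', show p - 2 + 1 = p - 1 by have := hp.two_le; omega]
    have h1 : N ^ (p - 1) ≡ 1 [MOD p] := by
      have := Nat.ModEq.pow_totient hpN
      rwa [Nat.totient_prime hp] at this
    exact ((CharP.cast_eq_iff_mod_eq k p).2 h1).trans Nat.cast_one
  -- the constant
  set D : ℕ → k := fun c => ((m.factorial * m : ℕ) : k) * hh k p N m c - (N : k) ^ m * ff k N m c with hD
  have hD1 : Function.Periodic D N := by
    intro c
    simp only [hD]
    rw [hh_N hp, ff_N hm1 hN']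
    ring
  have hD2 : Function.Periodic D p := by
    intro c
    simp only [hD]
    rw [hh_p hp hm1 hmp hN', ff_p]
  have hDc : ∀ c, D c = D 0 := by
    intro c
    obtain ⟨z, hz1, hz2⟩ := Nat.chineseRemainder hpN c 0
    have e1 : D z = D c := by
      rw [← hD1.map_mod_nat z, ← hD1.map_mod_nat c]
      congr 1
    have e2 : D z = D 0 := by
      rw [← hD2.map_mod_nat z, ← hD2.map_mod_nat 0]
      congr 1
    rw [← e1, e2]
  -- the two decompositions
  have h1 : ∑ a ∈ range p, (a : k) ^ (m - 1) * ∑ b ∈ range N, (b : k) * χ ((a + p * b : ℕ) : ZMod N) =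
      ∑ x ∈ range (p * N), gg k p m x * χ ((x : ℕ) : ZMod N) := by
    rw [split, Finset.sum_comm]
    refine Finset.sum_congr rfl fun a ha => ?_
    rw [Finset.mul_sum]
    refine Finset.sum_congr rfl fun b _ => ?_
    unfold gg
    rw [Nat.add_mul_div_left _ _ hp.pos, Nat.div_eq_of_lt (mem_range.1 ha), zero_add]
    push_cast
    rw [CharP.cast_eq_zero k p, zero_mul, add_zero]
    ring
  have h2 : ∑ x ∈ range (p * N), gg k p m x * χ ((x : ℕ) : ZMod N) = ∑ c ∈ range N, χ ((c : ℕ) : ZMod N) * hh k p N m c := by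
    rw [mul_comm p N, split, Finset.sum_comm]
    refine Finset.sum_congr rfl fun c _ => ?_
    unfold hh
    rw [Finset.mul_sum]
    refine Finset.sum_congr rfl fun i _ => ?_
    have : ((c + N * i : ℕ) : ZMod N) = ((c : ℕ) : ZMod N) := by
      push_cast
      rw [ZMod.natCast_self, zero_mul, add_zero]
    rw [this]
    ring
  rw [h1, h2]
  have h3 : ∑ c ∈ range N, χ ((c : ℕ) : ZMod N) * D c = 0 := by
    rw [Finset.sum_congr rfl fun c _ => by rw [hDc c]]
    rw [← Finset.sum_mul, hχ, zero_mul]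
  simp only [hD, mul_sub, Finset.sum_sub_distrib] at h3
  rw [sub_eq_zero] at h3
  rw [Finset.mul_sum, Finset.mul_sum]
  refine Eq.trans (Finset.sum_congr rfl fun c _ => ?_) (h3.trans (Finset.sum_congr rfl fun c _ => ?_)) <;> ring

end

end Pool.Agent.X218.LP
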