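import Pool.Agent.X218.LP.Ana

/-!
# The reduction of the integral sums
-/

set_option autoImplicit false

namespace Pool.Agent.X218.LP

open Finset Filter Topology Pool.Agent.Y18.GX
open Pool.Agent.X218.GX (FF_aeval_nat)

section
variable (C : Type) [NormedField C] [IsUltrametricDist C]

/-- the ring of integers -/
def OO : Subring C where
  carrier := {x | ‖x‖ ≤ 1}
  mul_mem' {x y} hx hy := norm_mul_le' zero_le_one hx hy
  one_mem' := by simp
  add_mem' {x y} hx hy := norm_add_le' hx hy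
  zero_mem' := by simp
  neg_mem' {x} hx := by simpa using hx

/-- the maximal ideal -/
def MM : Ideal (OO C) where
  carrier := {x | ‖(x : C)‖ < 1}
  add_mem' {x y} hx hy := (IsUltrametricDist.norm_add_le_max (x : C) y).trans_lt (max_lt hx hy)
  zero_mem' := by simp
  smul_mem' x y hy := by
    change ‖(x : C) * (y : C)‖ < 1
    rw [norm_mul]
    calc ‖(x : C)‖ * ‖(y : C)‖ ≤ 1 * ‖(y : C)‖ := mul_le_mul_of_nonneg_right x.2 (norm_nonneg _)
      _ < 1 := by rw [one_mul]; exact hy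

instance MM_max : (MM C).IsMaximal := by
  rw [Ideal.isMaximal_iff]
  constructor
  · intro h
    have : ‖((1 : OO C) : C)‖ < 1 := h
    simp at this
  · intro J x hJ hx hxJ
    have h1 : ‖(x : C)‖ = 1 := le_antisymm x.2 (not_lt.1 hx)
    have h0 : (x : C) ≠ 0 := by
      intro h
      rw [h, norm_zero] at h1
      exact zero_ne_one h1
    have h2 : (⟨(x : C)⁻¹, by change ‖(x : C)⁻¹‖ ≤ 1; rw [norm_inv, h1, inv_one]⟩ : OO C) * x = 1 := by
      apply Subtype.ext
      exact inv_mul_cancel₀ h0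
    rw [← h2]
    exact J.mul_mem_left _ hxJ

noncomputable instance kfield : Field (OO C ⧸ MM C) := Ideal.Quotient.field (MM C)

end

section
variable {p : ℕ} [hp : Fact p.Prime] {C : Type} [NormedField C] [NormedAlgebra ℚ_[p] C] [IsUltrametricDist C]

variable (p C) in
lemma kchar : CharP (OO C ⧸ MM C) p := by
  constructor
  intro n
  have h1 : ((n : ℕ) : OO C ⧸ MM C) = Ideal.Quotient.mk (MM C) ((n : ℕ) : OO C) := (map_natCast _ n).symm
  rw [h1, Ideal.Quotient.eq_zero_iff_mem]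
  have h2 : (((n : ℕ) : OO C) : C) = (n : C) := by simp
  change ‖(((n : ℕ) : OO C) : C)‖ < 1 ↔ _
  rw [h2]
  constructor
  · intro h
    by_contra hcon
    rw [norm_nat_one (p := p) hcon] at h
    exact lt_irrefl _ h
  · rintro ⟨t, rfl⟩
    rw [Nat.cast_mul, norm_mul, norm_pp (p := p)]
    calc (p : ℝ)⁻¹ * ‖(t : C)‖ ≤ (p : ℝ)⁻¹ * 1 :=
          mul_le_mul_of_nonneg_left (norm_nat_le (p := p) t) (by positivity)
      _ < 1 := by rw [mul_one]; exact q_lt (p := p)

/-- the reduced character -/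
def red {N : ℕ} (hN : N ≠ 0) (ψ : MulChar (ZMod N) C) : MulChar (ZMod N) (OO C ⧸ MM C) where
  toFun x := Ideal.Quotient.mk (MM C) ⟨ψ x, norm_psi ψ hN x⟩
  map_one' := by
    rw [← map_one (Ideal.Quotient.mk (MM C))]
    congr 1
    exact Subtype.ext (map_one ψ)
  map_mul' x y := by
    rw [← map_mul]
    congr 1
    exact Subtype.ext (map_mul ψ x y)
  map_nonunit' x hx := by
    rw [← map_zero (Ideal.Quotient.mk (MM C))]
    congr 1
    exact Subtype.ext (ψ.map_nonunit hx)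

theorem unit_val {N : ℕ} (ψ : MulChar (ZMod N) C) (hN : N ≠ 0) (hpN : p.Coprime N)
    (hψ : ∑ c ∈ range N, ψ (c : ZMod N) = 0) {s m : ℕ} (hm1 : 1 ≤ m) (hmp : m < p) (hsm : p - 1 ∣ s + m)
    (hres : ∀ (k : Type) [Field k] [CharP k p] (χ : MulChar (ZMod N) k) (ρ : OO C →+* k),
      (∀ x, χ x = ρ ⟨ψ x, norm_psi ψ hN x⟩) → ∑ c ∈ range N, χ (c : ZMod N) * ff k N m c ≠ 0 ∧
      (m = 1 → χ ((p : ℕ) : ZMod N) ≠ 1)) : ‖I ψ p s 1‖ = 1 := by
  by_contra hcon
  have hlt : ‖I ψ p s 1‖ < 1 := lt_of_le_of_ne (norm_I ψ hN s 1) hcon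
  have := kchar p C
  have hred : ∀ x, red hN ψ x = Ideal.Quotient.mk (MM C) ⟨ψ x, norm_psi ψ hN x⟩ := fun x => rfl
  obtain ⟨h1, h2⟩ := hres (OO C ⧸ MM C) (red hN ψ) (Ideal.Quotient.mk (MM C)) hred
  set k := OO C ⧸ MM C
  set χ := red hN ψ with hχd
  -- the character sum
  have hχ : ∑ c ∈ range N, χ (c : ZMod N) = 0 := by
    have e1 : ∑ c ∈ range N, (⟨ψ (c : ZMod N), norm_psi ψ hN _⟩ : OO C) = 0 := by
      apply Subtype.ext
      rw [AddSubmonoidClass.coe_finset_sum]
      exact hψ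
    have e2 := congrArg (Ideal.Quotient.mk (MM C)) e1
    rw [map_sum, map_zero] at e2
    exact e2
  -- reduction of `w`
  have hw : ∀ a : ℕ, Ideal.Quotient.mk (MM C) (⟨w p C a, norm_w a⟩ : OO C) = ((a : ℕ) : k)⁻¹ := by
    intro a
    by_cases ha : p ∣ a
    · have e1 : (⟨w p C a, norm_w a⟩ : OO C) = 0 := by
        apply Subtype.ext
        change w p C a = 0
        unfold w
        rw [if_pos ha]
      rw [e1, map_zero, (CharP.cast_eq_zero_iff k p a).2 ha, inv_zero]
    · have e1 : (⟨w p C a, norm_w a⟩ : OO C) * ((a : ℕ) : OO C) = 1 := by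
        apply Subtype.ext
        change w p C a * (((a : ℕ) : OO C) : C) = 1
        unfold w
        rw [if_neg ha]
        have : (a : C) ≠ 0 := nat_ne (p := p) (fun h0 => ha (h0 ▸ dvd_zero p))
        simp [this]
      have e2 := congrArg (Ideal.Quotient.mk (MM C)) e1
      rw [map_mul, map_natCast, map_one] at e2
      exact eq_inv_of_mul_eq_one_left e2
  -- reduction of `I`
  have hI : Ideal.Quotient.mk (MM C) (⟨I ψ p s 1, norm_I ψ hN s 1⟩ : OO C) =
      ∑ a ∈ range p, (((a : ℕ) : k)⁻¹) ^ (s + 1) * ∑ b ∈ range N, (b : k) * χ ((a + p * b : ℕ) : ZMod N) := by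
    have e1 : (⟨I ψ p s 1, norm_I ψ hN s 1⟩ : OO C) = ∑ a ∈ range p, (⟨w p C a, norm_w a⟩ : OO C) ^ (s + 1) *
        ∑ b ∈ range N, ((b : ℕ) : OO C) * (⟨ψ ((a + p * b : ℕ) : ZMod N), norm_psi ψ hN _⟩ : OO C) := by
      apply Subtype.ext
      change I ψ p s 1 = _
      unfold I B
      rw [AddSubmonoidClass.coe_finset_sum]
      simp only [pow_one, Subring.coe_mul, Subring.coe_pow, AddSubmonoidClass.coe_finset_sum, Subring.coe_natCast]
    rw [e1, map_sum]
    refine Finset.sum_congr rfl fun a _ => ?_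
    rw [map_mul, map_pow, hw, map_sum]
    congr 1
  have hI0 : Ideal.Quotient.mk (MM C) (⟨I ψ p s 1, norm_I ψ hN s 1⟩ : OO C) = 0 := by
    rw [Ideal.Quotient.eq_zero_iff_mem]
    exact hlt
  rw [hI0] at hI
  have hpp := hp.out
  have hNk : (N : k) ≠ 0 := by
    intro h
    have := (CharP.cast_eq_zero_iff k p N).1 h
    exact (Nat.Prime.coprime_iff_not_dvd hpp).1 hpN this
  have hJ := res_J (k := k) hpp hpN.symm hN hm1 hmp χ hχ
  -- the powers
  have hpow : ∀ a ∈ range p, a ≠ 0 → (((a : ℕ) : k)⁻¹) ^ (s + 1) = (a : k) ^ (m - 1) := by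
    intro a ha ha0
    have hap : ¬ p ∣ a := fun h => by
      have := Nat.le_of_dvd (Nat.pos_of_ne_zero ha0) h
      have := mem_range.1 ha
      omega
    have ha' : ((a : ℕ) : k) ≠ 0 := fun h => hap ((CharP.cast_eq_zero_iff k p a).1 h)
    obtain ⟨t, ht⟩ := hsm
    have h5 : ((a : ℕ) : k) ^ (s + m) = 1 := by
      rw [ht, pow_mul]
      have h6 : a ^ (p - 1) ≡ 1 [MOD p] := by
        have h7 := Nat.ModEq.pow_totient ((Nat.Prime.coprime_iff_not_dvd hpp).2 hap).symm
        rwa [Nat.totient_prime hpp] at h7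
      have h8 : ((a : ℕ) : k) ^ (p - 1) = 1 := by
        rw [← Nat.cast_pow]
        exact ((CharP.cast_eq_iff_mod_eq k p).2 h6).trans Nat.cast_one
      rw [h8, one_pow]
    rw [inv_pow, inv_eq_one_div, div_eq_iff (pow_ne_zero _ ha'), ← pow_add]
    have : m - 1 + (s + 1) = s + m := by omega
    rw [this, h5]
  have h0 : range p = insert 0 ((range p).erase 0) := (Finset.insert_erase (mem_range.2 hpp.pos)).symm
  rcases Nat.lt_or_ge 1 m with hm2 | hm2
  · -- `m ≥ 2`
    have e1 : ∑ a ∈ range p, (((a : ℕ) : k)⁻¹) ^ (s + 1) * ∑ b ∈ range N, (b : k) * χ ((a + p * b : ℕ) : ZMod N) =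
        ∑ a ∈ range p, (a : k) ^ (m - 1) * ∑ b ∈ range N, (b : k) * χ ((a + p * b : ℕ) : ZMod N) := by
      refine Finset.sum_congr rfl fun a ha => ?_
      by_cases ha0 : a = 0
      · subst ha0
        rw [Nat.cast_zero, inv_zero, zero_pow (by omega), zero_pow (by omega)]
      · rw [hpow a ha ha0]
    rw [← e1, ← hI, mul_zero] at hJ
    exact h1 ((mul_eq_zero.1 hJ.symm).resolve_left (pow_ne_zero _ hNk))
  · -- `m = 1`
    have hm : m = 1 := by omega
    subst hm
    have e1 : ∑ a ∈ range p, (a : k) ^ (1 - 1) * ∑ b ∈ range N, (b : k) * χ ((a + p * b : ℕ) : ZMod N) =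
        ∑ a ∈ range p, (((a : ℕ) : k)⁻¹) ^ (s + 1) * ∑ b ∈ range N, (b : k) * χ ((a + p * b : ℕ) : ZMod N) +
        χ ((p : ℕ) : ZMod N) * ∑ b ∈ range N, (b : k) * χ ((b : ℕ) : ZMod N) := by
      rw [h0, Finset.sum_insert (Finset.notMem_erase _ _), Finset.sum_insert (Finset.notMem_erase _ _)]
      have e2 : ∑ a ∈ (range p).erase 0, (a : k) ^ (1 - 1) * ∑ b ∈ range N, (b : k) * χ ((a + p * b : ℕ) : ZMod N) =
          ∑ a ∈ (range p).erase 0, (((a : ℕ) : k)⁻¹) ^ (s + 1) * ∑ b ∈ range N, (b : k) * χ ((a + p * b : ℕ) : ZMod N) := by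
        refine Finset.sum_congr rfl fun a ha => ?_
        rw [hpow a (Finset.mem_of_mem_erase ha) (Finset.ne_of_mem_erase ha)]
      rw [e2, Nat.cast_zero, inv_zero, zero_pow (show s + 1 ≠ 0 by omega), zero_mul, zero_add, add_comm, Nat.sub_self,
        pow_zero, one_mul]
      congr 1
      rw [Finset.mul_sum]
      refine Finset.sum_congr rfl fun b _ => ?_
      rw [zero_add, Nat.cast_mul, map_mul]
      ring
    rw [← hI, zero_add] at e1
    rw [e1] at hJ
    have e3 : ∑ b ∈ range N, (b : k) * χ ((b : ℕ) : ZMod N) = N * ∑ c ∈ range N, χ (c : ZMod N) * ff k N 1 c := by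
      rw [Finset.mul_sum]
      refine Finset.sum_congr rfl fun b _ => ?_
      obtain ⟨N', hN'⟩ : ∃ N' : ℕ, (N : k) * (N' : k) = 1 := by
        refine ⟨N ^ (p - 2), ?_⟩
        rw [← Nat.cast_mul, ← pow_succ', show p - 2 + 1 = p - 1 by have := hpp.two_le; omega]
        have h7 : N ^ (p - 1) ≡ 1 [MOD p] := by
          have := Nat.ModEq.pow_totient hpN.symm
          rwa [Nat.totient_prime hpp] at this
        exact ((CharP.cast_eq_iff_mod_eq k p).2 h7).trans Nat.cast_one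
      have e4 : ((b : ℕ) : k) / (N : ℕ) = ((b * N' : ℕ) : k) := by
        rw [div_eq_iff hNk, Nat.cast_mul]
        linear_combination (-(b : k)) * hN'
      have e5 : ff k N 1 b = ((b * N' : ℕ) : k) := by
        unfold ff
        rw [e4, FF_aeval_nat 1 _ le_rfl]
        simp
      rw [e5, Nat.cast_mul]
      linear_combination (-(b : k) * χ ((b : ℕ) : ZMod N)) * hN'
    rw [e3] at hJ
    have e6 : (N : k) * ((χ ((p : ℕ) : ZMod N) - 1) * ∑ c ∈ range N, χ (c : ZMod N) * ff k N 1 c) = 0 := by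
      have e7 : ((Nat.factorial 1 * 1 : ℕ) : k) = 1 := by simp
      rw [e7] at hJ
      linear_combination hJ
    have e8 := (mul_eq_zero.1 e6).resolve_left hNk
    rcases mul_eq_zero.1 e8 with h | h
    · exact h2 rfl (sub_eq_zero.1 h)
    · exact h1 h

end

end Pool.Agent.X218.LP
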